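import Pool.Agent.helper60.EPT.FIN
import Pool.Agent.helper23.EPT.ANY
import Pool.Agent.helper23.EPT.ARI
import Pool.Agent.helper74.EPT.CAL
import Pool.Agent.helper3.EPT.CLL
import Pool.Agent.helper42.EPT.DRP
import Pool.Agent.helper14.EPT.EVA
import Pool.Agent.helper78.EPT.FLM
import Pool.Agent.helper48.EPT.FLT
import Pool.Agent.helper72.EPT.GRF
import Pool.Agent.helper97.EPT.GRS
import Pool.Agent.helper11.EPT.GSZ
import Pool.Agent.helper72.EPT.HAG
import Pool.Agent.helper79.EPT.LOK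
import Pool.Agent.helper42.EPT.MAP
import Pool.Agent.helper31.EPT.MCB
import Pool.Agent.helper41.EPT.MCS
import Pool.Agent.helper39.EPT.NDT
import Pool.Agent.helper29.EPT.P1F
import Pool.Agent.helper43.EPT.PBC
import Pool.Agent.helper76.EPT.RCG
import Pool.Agent.helper43.EPT.RCO
import Pool.Agent.helper76.EPT.REV
import Pool.Agent.helper72.EPT.RFO
import Pool.Agent.helper52.EPT.RIT
import Pool.Agent.helper76.EPT.RWL
import Pool.Agent.helper41.EPT.SND
import Pool.Agent.helper45.EPT.TUR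
import Pool.Agent.helper28.EPT.TUS
import Pool.Agent.helper52.EPT.VSZ
import Pool.Agent.helper43.EPT.RSZ
import Pool.Agent.helper5.EPT.VCF
import Pool.Agent.helper27.EPT.ZPF
import Pool.Agent.helper27.EPT.DDS
import Pool.Agent.helper96.EPT.DDF
import Pool.Agent.helper5.EPT.TUM
import Pool.Agent.helper5.EPT.VAR
import Pool.Agent.helper2.EPT.TRC
import Pool.Agent.helper27.EPT.RBA
import Pool.Agent.helper8.EPT.INJ
import Pool.Agent.helper41.EPT.CPL
import Pool.Agent.helper33.EPT.GRA

/-!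
# Project EPT: assembly
-/

set_option autoImplicit false

namespace Pool.Agent.EPT

theorem All_RWL : RWL_stmt := RWL PBC RSZ (RCG PBC RSZ)
theorem All_RBA : RBA_stmt := RBA PBC
theorem All_RCG : RCG_stmt := RCG PBC RSZ
theorem All_RCO : RCO_stmt := RCO PBC
theorem All_RIT : RIT_stmt := RIT PBC All_RBA All_RCG All_RCO All_RWL
theorem All_RFO : RFO_stmt := RFO PBC All_RBA All_RCG All_RCO All_RIT
theorem All_Cal : Cal := CAL PBC RSZ All_RBA All_RCG All_RCO All_RWL All_RIT All_RFO
theorem All_REV : REV_stmt := REV All_Cal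
theorem All_FLT : FLT_stmt := FLT All_Cal All_REV
theorem All_ANY : ANY_stmt := ANY All_Cal All_FLT
theorem All_CalL : CalL := CLL All_Cal All_REV (MAP All_Cal All_REV) All_FLT (FLM All_Cal All_REV) All_ANY (ZPF All_Cal All_REV)
  (DRP All_Cal All_REV) (LOK All_Cal All_FLT) (DDF All_Cal All_ANY) (TRC All_Cal)
theorem All_TUS : TUS_stmt := TUS TUM
theorem All_TUR : TUR_stmt := TUR All_Cal All_CalL PBC All_RBA All_RCG All_RCO All_RIT All_TUS
theorem All_MCB : MCB_stmt := MCB All_Cal All_CalL PBC All_RBA All_RCG All_RCO (MCS TUM HAG DDS) (EVA All_Cal All_CalL)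
  (VAR All_Cal All_CalL) All_TUR
theorem All_GRA : GRA_stmt := GRA All_Cal All_CalL (VCF All_Cal All_CalL)
theorem All_P1F : P1F_stmt := P1F All_Cal All_CalL PBC All_RBA All_RCG All_RCO (GRF All_Cal All_CalL) GRS All_GRA (CPL INJ) (SND INJ) GSZ TUM
  All_TUS All_TUR

/-- An ept-reduction from `p-CLIQUE` to `p-MC(Σ₁)` gives 3-SAT with `m` clauses in time `2^(O(m / log m))`. -/
theorem eptRed_fastSat3 : EptRed pClique pMC → FastSat3 := FIN RSZ All_P1F All_MCB VSZ DDS NDT GRS ARI

end Pool.Agent.EPT
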