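import Pool.Agent.helper60.EPT.SpecS

set_option autoImplicit false

namespace Pool.Agent.EPT

open D

theorem FNE_est (C c₀ c₁ : ℕ) (E s G t₀ t₁ : ℝ) (hE : 1 ≤ E) (hs : 1 ≤ s) (hG : E ^ c₀ ≤ G)
    (h0 : t₀ ≤ (C * E * s ^ C + c₀) ^ c₀) (h1 : t₁ ≤ (s + c₁) ^ c₁) :
    t₁ + t₀ ≤ (((C + c₀) ^ c₀ + (1 + c₁) ^ c₁ + C * c₀ + c₁ : ℕ) : ℝ) * G * s ^ ((C + c₀) ^ c₀ + (1 + c₁) ^ c₁ + C * c₀ + c₁) := by
  set K : ℕ := (C + c₀) ^ c₀ + (1 + c₁) ^ c₁ + C * c₀ + c₁ with hK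
  have hE0 : 0 ≤ E := by linarith
  have hs0 : 0 ≤ s := by linarith
  have hG1 : 1 ≤ G := le_trans (one_le_pow₀ hE) hG
  have hG0 : 0 ≤ G := by linarith
  have hEs : 1 ≤ E * s ^ C := by
    calc (1 : ℝ) = 1 * 1 := by ring
      _ ≤ E * s ^ C := mul_le_mul hE (one_le_pow₀ hs) (by norm_num) hE0
  have e0 : (C * E * s ^ C + c₀) ^ c₀ ≤ ((C : ℝ) + c₀) ^ c₀ * G * s ^ K := by
    have a1 : (C : ℝ) * E * s ^ C + c₀ ≤ ((C : ℝ) + c₀) * (E * s ^ C) := by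
      have : (c₀ : ℝ) ≤ c₀ * (E * s ^ C) := le_mul_of_one_le_right (Nat.cast_nonneg _) hEs
      nlinarith
    calc ((C : ℝ) * E * s ^ C + c₀) ^ c₀ ≤ (((C : ℝ) + c₀) * (E * s ^ C)) ^ c₀ :=
          pow_le_pow_left₀ (by positivity) a1 _
      _ = ((C : ℝ) + c₀) ^ c₀ * E ^ c₀ * s ^ (C * c₀) := by rw [mul_pow, mul_pow, pow_mul]; ring
      _ ≤ ((C : ℝ) + c₀) ^ c₀ * G * s ^ K := by
          apply mul_le_mul
          · exact mul_le_mul_of_nonneg_left hG (by positivity)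
          · exact pow_le_pow_right₀ hs (by rw [hK]; omega)
          · positivity
          · positivity
  have e1 : (s + c₁) ^ c₁ ≤ (1 + (c₁ : ℝ)) ^ c₁ * G * s ^ K := by
    have a1 : s + (c₁ : ℝ) ≤ (1 + c₁) * s := by
      have : (c₁ : ℝ) ≤ c₁ * s := le_mul_of_one_le_right (Nat.cast_nonneg _) hs
      nlinarith
    calc (s + (c₁ : ℝ)) ^ c₁ ≤ ((1 + (c₁ : ℝ)) * s) ^ c₁ := pow_le_pow_left₀ (by positivity) a1 _
      _ = (1 + (c₁ : ℝ)) ^ c₁ * 1 * s ^ c₁ := by rw [mul_pow]; ring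
      _ ≤ (1 + (c₁ : ℝ)) ^ c₁ * G * s ^ K := by
          apply mul_le_mul
          · exact mul_le_mul_of_nonneg_left hG1 (by positivity)
          · exact pow_le_pow_right₀ hs (by rw [hK]; omega)
          · positivity
          · positivity
  have e2 : ((C : ℝ) + c₀) ^ c₀ + (1 + (c₁ : ℝ)) ^ c₁ ≤ (K : ℝ) := by
    have : (C + c₀) ^ c₀ + (1 + c₁) ^ c₁ ≤ K := by rw [hK]; omega
    exact_mod_cast this
  have hGs : 0 ≤ G * s ^ K := by positivity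
  calc t₁ + t₀ ≤ (((C : ℝ) + c₀) ^ c₀ + (1 + (c₁ : ℝ)) ^ c₁) * (G * s ^ K) := by
        have := h0.trans e0; have := h1.trans e1; linarith
    _ ≤ (K : ℝ) * (G * s ^ K) := mul_le_mul_of_nonneg_right e2 hGs
    _ = (K : ℝ) * G * s ^ K := by ring

theorem FNE (hC : Cal) (hLST : LST_stmt) (hCRR : CRR_stmt) (hBND : BND_stmt) : FNE_stmt := by
  rintro hF ⟨δ, hδ, hno⟩
  apply hno
  obtain ⟨d, ⟨p₀, c₀, hp₀⟩, hd⟩ := hLST hF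
  obtain ⟨j, hj1, hj⟩ : ∃ j : ℕ, 1 ≤ j ∧ (c₀ : ℝ) / j ≤ δ := by
    refine ⟨⌈(c₀ : ℝ) / δ⌉₊ + 1, by omega, ?_⟩
    have h1 : (c₀ : ℝ) / δ ≤ ⌈(c₀ : ℝ) / δ⌉₊ := Nat.le_ceil _
    rw [div_le_iff₀ (by positivity)]
    have h2 := (div_le_iff₀ hδ).1 h1
    push_cast
    nlinarith
  obtain ⟨A, B, C, x, y, hW, hS⟩ := hBND j hj1
  obtain ⟨q, c₁, hq⟩ : FP fun z => cons z (cons A B) := hC.cons _ _ hC.id (hC.const _)
  refine ⟨.comp p₀ q, (C + c₀) ^ c₀ + (1 + c₁) ^ c₁ + C * c₀ + c₁, fun z => ?_⟩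
  obtain ⟨t₀, ht₀, hr₀⟩ := hp₀ (cons z (cons A B))
  obtain ⟨t₁, ht₁, hr₁⟩ := hq z
  refine ⟨d (cons z (cons A B)), t₁ + t₀, Run.comp p₀ q z _ _ t₁ t₀ hr₁ hr₀, (hd _).trans (hCRR z A B x y hW).1.symm, ?_⟩
  have hs1 : (1 : ℝ) ≤ z.size := by exact_mod_cast size_pos z
  have hE1 : (1 : ℝ) ≤ (2 : ℝ) ^ ((nvar z : ℝ) / j) := Real.one_le_rpow (by norm_num) (by positivity)
  rw [Nat.cast_add]
  apply FNE_est C c₀ c₁ ((2 : ℝ) ^ ((nvar z : ℝ) / j)) z.size ((2 : ℝ) ^ (δ * nvar z)) t₀ t₁ hE1 hs1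
  · rw [← Real.rpow_natCast, ← Real.rpow_mul (by norm_num)]
    apply Real.rpow_le_rpow_of_exponent_le (by norm_num)
    have : (nvar z : ℝ) / j * c₀ = (c₀ : ℝ) / j * nvar z := by ring
    rw [this]
    exact mul_le_mul_of_nonneg_right hj (Nat.cast_nonneg _)
  · calc (t₀ : ℝ) ≤ (((S2 (cons z (cons A B)) + c₀) ^ c₀ : ℕ) : ℝ) := by exact_mod_cast ht₀
      _ = ((S2 (cons z (cons A B)) : ℝ) + c₀) ^ c₀ := by push_cast; ring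
      _ ≤ _ := pow_le_pow_left₀ (by positivity) (add_le_add (hS z) le_rfl) _
  · calc (t₁ : ℝ) ≤ (((z.size + c₁) ^ c₁ : ℕ) : ℝ) := by exact_mod_cast ht₁
      _ = ((z.size : ℝ) + c₁) ^ c₁ := by push_cast; ring

end Pool.Agent.EPT
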