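import Pool.Agent.helper60.EPT.All
import Pool.Agent.helper60.EPT.FNE
import Pool.Agent.helper41.EPT.SBD
import Pool.Agent.helper16.EPT.SNW
import Pool.Agent.helper72.EPT.SBR
import Pool.Agent.helper8.EPT.SPT
import Pool.Agent.helper78.EPT.SRE
import Pool.Agent.helper3.EPT.SSE
import Pool.Agent.helper25.EPT.DAB
import Pool.Agent.helper18.EPT.DST
import Pool.Agent.helper72.EPT.DFR
import Pool.Agent.helper28.EPT.DSZ
import Pool.Agent.helper2.EPT.DIN
import Pool.Agent.helper39.EPT.DCV
import Pool.Agent.helper60.EPT.CRR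
import Pool.Agent.helper45.EPT.DFA
import Pool.Agent.helper84.EPT.DFB
import Pool.Agent.helper20.EPT.DFD
import Pool.Agent.helper51.EPT.RWX
import Pool.Agent.helper35.EPT.RFX
import Pool.Agent.helper13.EPT.FRT
import Pool.Agent.helper96.EPT.LST
import Pool.Agent.helper22.EPT.FGR
import Pool.Agent.helper85.EPT.BND

/-!
# Project EPT, part S: assembly
-/

set_option autoImplicit false

namespace Pool.Agent.EPT

theorem All_SBR : SBR_stmt := SBR SNW
theorem All_SPT : SPT_stmt := SPT All_SBR
theorem All_DST : DST_stmt := DST DAB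
theorem All_DFR : DFR_stmt := DFR SBD All_SBR All_SPT SSE All_DST
theorem All_DIN : DIN_stmt := DIN DAB DDS SSE
theorem All_CRR : CRR_stmt := CRR SBD All_DFR All_DIN DCV DSZ
theorem All_DFA : DFA_stmt := DFA All_Cal All_CalL
theorem All_DFB : DFB_stmt := DFB All_Cal All_CalL All_DFA
theorem All_DFD : DFD_stmt := DFD All_Cal All_CalL All_DFA
theorem All_RWX : RWX_stmt := RWX PBC RSZ All_RCG
theorem All_RFX : RFX_stmt := RFX PBC All_RBA All_RCG All_RCO All_RWX
theorem All_FRT : FRT_stmt := FRT All_Cal All_CalL PBC All_RBA All_RCG All_RCO All_RIT All_DFB All_DFD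
theorem All_LST : LST_stmt := LST All_Cal All_CalL PBC All_RBA All_RCG All_RCO All_RFX All_FRT All_DFD
theorem All_BND : BND_stmt := BND All_CRR SRE FGR

/-- The sparsification lemma: if 3-SAT with `m` clauses is decided in time `2^(O(m / log m))`, the exponential time hypothesis fails. -/
theorem fastSat3_not_ETH : FastSat3 → ¬ ETH := FNE All_Cal All_LST All_CRR All_BND

/-- An ept-reduction from `p-CLIQUE` to `p-MC(Σ₁)` refutes the exponential time hypothesis. -/
theorem eptRed_not_ETH (h : EptRed pClique pMC) : ¬ ETH := fastSat3_not_ETH (eptRed_fastSat3 h)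

end Pool.Agent.EPT
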