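import Pool.Agent.helper60.EPT.SpecS

set_option autoImplicit false

namespace Pool.Agent.EPT

open D

theorem CRR_tmr (z A : D) : (tmr z A).toList.length = (z.toList.length + 1) * (10 + 30 * A.toList.length) := by
  have h1 : ∀ L : List D, (L.flatMap fun _ => List.replicate 30 nil).length = 30 * L.length := by
    intro L
    induction L with
    | nil => rfl
    | cons c L ih => simp only [List.flatMap_cons, List.length_append, List.length_replicate, ih, List.length_cons]; ring
  have h2 : ∀ L : List D, (L.flatMap fun _ => List.replicate 10 nil ++ A.toList.flatMap fun _ => List.replicate 30 nil).length =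
      L.length * (10 + 30 * A.toList.length) := by
    intro L
    induction L with
    | nil => simp
    | cons c L ih =>
      rw [List.flatMap_cons, List.length_append, ih, List.length_append, List.length_replicate, h1, List.length_cons]
      ring
  rw [tmr, toList_ofList, h2, toList_cons, List.length_cons]

theorem CRR_len (G : D) (hN : Nd G) (a : ℕ) (Λ : Finset D) (hG : Good a Λ (fs G)) :
    ∀ c ∈ G.toList, 1 ≤ c.toList.length ∧ c.toList.length ≤ 3 := by
  intro c hc
  have h1 : cs c ∈ fs G := by
    rw [fs, List.mem_toFinset]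
    exact List.mem_map_of_mem hc
  have h2 := hG.card _ h1
  have h3 : (cs c).card = c.toList.length := List.toFinset_card_of_nodup (hN.2 c hc)
  rw [h3] at h2
  exact h2

theorem CRR (hSBD : SBD_stmt) (hDFR : DFR_stmt) (hDIN : DIN_stmt) (hDCV : DCV_stmt) (hDSZ : DSZ_stmt) : CRR_stmt := by
  intro z A B x y hW
  obtain ⟨hNd, hGd, hSat, hcard, hnv, hsz⟩ := hDIN z
  have hG := hGd A.toList.length hW.1
  have hD := hDFR A.toList.length B.toList.length x y (lit z) (F0 z) hW hNd hG
  have hT : (1 + 3 * A.toList.length) * (lit z).card < (tmr z A).toList.length := by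
    rw [CRR_tmr]
    have h1 : (lit z).card < 10 * (z.toList.length + 1) := by omega
    calc (1 + 3 * A.toList.length) * (lit z).card < (1 + 3 * A.toList.length) * (10 * (z.toList.length + 1)) :=
          Nat.mul_lt_mul_of_pos_left h1 (by omega)
      _ = (z.toList.length + 1) * (10 + 30 * A.toList.length) := by ring
  have hfrk : ∀ n, frk (cons z (cons A B)) n = (frn A.toList.length B.toList.length)^[n] (cons (F0 z) nil) := fun n => rfl
  have hfrt : frt (cons z (cons A B)) = (frn A.toList.length B.toList.length)^[(tmr z A).toList.length] (cons (F0 z) nil) := rfl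
  obtain ⟨k1, -, k3, k4⟩ := hD (tmr z A).toList.length
  refine ⟨?_, ?_, ?_⟩
  · rw [hfrt]
    constructor
    · intro h
      obtain ⟨v, hv⟩ := hSat.1 h
      obtain ⟨G, hG1, hG2⟩ := (k3 (LitT v)).1 hv
      exact ⟨G, hG1, ((hDCV G (CRR_len G (k1 G hG1).1 _ _ (k1 G hG1).2)).1).2 ⟨v, hG2⟩⟩
    · rintro ⟨G, hG1, hG2⟩
      obtain ⟨v, hv⟩ := ((hDCV G (CRR_len G (k1 G hG1).1 _ _ (k1 G hG1).2)).1).1 hG2
      exact hSat.2 ⟨v, (k3 (LitT v)).2 ⟨G, hG1, hv⟩⟩
  · rw [hfrt]
    intro G hG1
    obtain ⟨n1, n2⟩ := k1 G hG1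
    rw [(hDCV G (CRR_len G n1 _ _ n2)).2, (hDSZ _ (z.size + 10) (lit z) G n1 n2 hsz).2]
    exact ((hSBD D _ _ _ n2).2.2 _ (k4 hT G hG1)).trans (Nat.mul_le_mul_left _ hcard)
  · intro n
    rw [hfrk]
    obtain ⟨j1, j2, -, -⟩ := hD n
    refine ⟨j2.trans ?_, ?_⟩
    · apply Real.rpow_le_rpow_of_exponent_le (by norm_num)
      obtain ⟨-, -, hx, hy, -⟩ := hW
      have hc : ((lit z).card : ℝ) ≤ 2 * nvar z + 4 := by exact_mod_cast hcard
      have h1 : (0 : ℝ) ≤ UU (fs (F0 z)) := Nat.cast_nonneg _
      have h2 : (0 : ℝ) ≤ rho A.toList.length (fs (F0 z)) := Nat.cast_nonneg _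
      have h3 : (0 : ℝ) ≤ A.toList.length := Nat.cast_nonneg _
      have h4 : (0 : ℝ) ≤ x + 3 * A.toList.length * y := by positivity
      calc W x y A.toList.length (lit z) (fs (F0 z)) ≤ x * (lit z).card + y * (3 * (A.toList.length : ℝ) * (lit z).card) := by
            rw [W]
            apply add_le_add
            · exact mul_le_mul_of_nonneg_left (by linarith) hx.le
            · exact mul_le_mul_of_nonneg_left (by linarith) hy.le
        _ = (x + 3 * A.toList.length * y) * (lit z).card := by ring
        _ ≤ (x + 3 * A.toList.length * y) * (2 * nvar z + 4) := mul_le_mul_of_nonneg_left hc h4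
    · intro G hG1
      obtain ⟨n1, n2⟩ := j1 G hG1
      refine (hDSZ _ (z.size + 10) (lit z) G n1 n2 hsz).1.trans ?_
      apply Nat.succ_le_succ
      exact Nat.mul_le_mul_right _ (Nat.pow_le_pow_left (by omega) 3)

end Pool.Agent.EPT
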