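import Mathlib

/-!
# Programs, `p-CLIQUE`, `p-MC(Σ₁)`, ept-reductions

All inputs and outputs are finite binary trees. A tree is the same as a balanced word over the alphabet of the two brackets: `nil` is the empty
word, `cons a b` is the word `(a)b`; so the size of a tree is the length of the word plus one, and a tree is also a list of trees (`toList`).
The model of computation is the language WHILE of Jones on binary trees, where every elementary operation costs the size of its argument
(`Run`); it is polynomially equivalent to Turing machines.
-/

set_option autoImplicit false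

namespace Pool.Agent.EPT

/-- Finite binary trees. -/
inductive D : Type
  | nil : D
  | cons (a b : D) : D
  deriving DecidableEq

namespace D

/-- The size: the number of nodes, which is the length of the tree as a word, plus one. -/
def size : D → ℕ
  | nil => 1
  | cons a b => a.size + b.size + 1

/-- The left part. -/
def fst : D → D
  | nil => nil
  | cons a _ => a

/-- The right part. -/
def snd : D → D
  | nil => nil
  | cons _ b => b

/-- A tree is a list of trees. -/
def toList : D → List D
  | nil => []
  | cons a b => a :: b.toList

/-- A list of trees is a tree. -/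
def ofList : List D → D
  | [] => nil
  | a :: l => cons a (ofList l)

end D

open D

/-- The truth value true (`nil` is false). -/
def one : D := cons nil nil

/-- Programs: the identity, the constant `nil`, the two parts, the comparison of the two parts, pairing, composition, case distinction, loops. -/
inductive Prog : Type
  | idt : Prog
  | emp : Prog
  | hd : Prog
  | tl : Prog
  | eqt : Prog
  | pair (p q : Prog) : Prog
  | comp (q p : Prog) : Prog
  | cond (c p q : Prog) : Prog
  | loop (c p : Prog) : Prog

/-- `Run p x y t`: on the input `x` the program `p` stops with the output `y` after the time `t`. Every elementary step costs the size of the data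
it is applied to. `cond c p q`: if `c` gives a value different from `nil` then `p`, otherwise `q`. `loop c p`: while `c` gives a value
different from `nil`, apply `p`. -/
inductive Run : Prog → D → D → ℕ → Prop
  | idt (x : D) : Run .idt x x x.size
  | emp (x : D) : Run .emp x nil x.size
  | hd (x : D) : Run .hd x x.fst x.size
  | tl (x : D) : Run .tl x x.snd x.size
  | eqt (x : D) : Run .eqt x (if x.fst = x.snd then one else nil) (x.size + 2)
  | pair (p q : Prog) (x y z : D) (s t : ℕ) : Run p x y s → Run q x z t → Run (.pair p q) x (cons y z) (s + t + x.size)
  | comp (q p : Prog) (x y z : D) (s t : ℕ) : Run p x y s → Run q y z t → Run (.comp q p) x z (s + t)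
  | condt (c p q : Prog) (x b y : D) (s t : ℕ) : Run c x b s → b ≠ nil → Run p x y t → Run (.cond c p q) x y (s + t + x.size)
  | condf (c p q : Prog) (x y : D) (s t : ℕ) : Run c x nil s → Run q x y t → Run (.cond c p q) x y (s + t + x.size)
  | loopt (c p : Prog) (x b y z : D) (s t u : ℕ) : Run c x b s → b ≠ nil → Run p x y t → Run (.loop c p) y z u →
      Run (.loop c p) x z (s + t + u + x.size)
  | loopf (c p : Prog) (x : D) (s : ℕ) : Run c x nil s → Run (.loop c p) x x (s + x.size)

/-- A parameterized problem: a set of words (trees) and the parameter. -/
structure Problem where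
  Q : D → Prop
  κ : D → ℕ

/-- There is an ept-reduction from `P` to `P'`: a map `R` with (1) `x ∈ P` iff `R x ∈ P'`; (2) `R x` is computed in time `2^(O(κ x)) |x|^(O(1))`;
(3) `κ' (R x) = O(κ x + log |x|)`. -/
def EptRed (P P' : Problem) : Prop :=
  ∃ R : D → D, (∀ x, P.Q x ↔ P'.Q (R x)) ∧
    (∃ (p : Prog) (c : ℕ), ∀ x, ∃ t, t ≤ 2 ^ (c * (P.κ x + 1)) * x.size ^ c ∧ Run p x (R x) t) ∧
    ∃ c : ℕ, ∀ x, P'.κ (R x) ≤ c * (P.κ x + Nat.log 2 x.size + 1)

/-- `p-CLIQUE`. The input is a list of length `k` (the number `k` in unary notation), the list of the vertices and the list of the edges.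
The parameter is `k`. -/
def pClique : Problem where
  Q x := ∃ s : Finset D, s.card = x.fst.toList.length ∧ (∀ u ∈ s, u ∈ x.snd.fst.toList) ∧
    ∀ u ∈ s, ∀ w ∈ s, u ≠ w → cons u w ∈ x.snd.snd.toList ∨ cons w u ∈ x.snd.snd.toList
  κ x := x.fst.toList.length

/-- The list of the values of the variables in a list. -/
def vals (v : D → D) (r : D) : D := ofList (r.toList.map v)

/-- `Holds F v ψ`: the quantifier-free formula `ψ` is true in the structure with the facts `F` under the assignment `v`. A fact is `R(a₁, ..)`: a
tree `cons R a`, `a` the list of the arguments. Formulas: `nil` is false; `cons nil (cons a b)` is the implication `a → b` (`cons nil nil`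
is true); `cons one r` is the equation between the first two variables of the list `r`; `cons R r` with `R` different from `nil`, `one`
is the atom `R(r)`, where `r` is a list of variables. Names of symbols and variables are arbitrary trees. -/
def Holds (F : List D) (v : D → D) : D → Prop
  | nil => False
  | cons nil nil => True
  | cons nil (cons a b) => Holds F v a → Holds F v b
  | cons (cons a b) r =>
    if cons a b = one then (vals v r).fst = (vals v r).snd.fst else cons (cons a b) (vals v r) ∈ F

/-- `p-MC(Σ₁)`. The input is a finite structure `A` (the list of its elements and the list of its facts) and a `Σ₁`-sentence `φ`, the existential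
closure of a quantifier-free formula `ψ` (the quantified variables are the variables of `ψ`, they are not written down). The question is whether `A`
satisfies `φ`. The parameter is the length of `φ` as a word. -/
def pMC : Problem where
  Q y := ∃ v : D → D, (∀ x, v x ∈ y.fst.fst.toList) ∧ Holds y.fst.snd.toList v y.snd
  κ y := y.snd.size

/-- The literal `l` (variable `l.snd`, negated if `l.fst` is `nil`) is true under the assignment `v`. -/
def LitT (v : D → Bool) (l : D) : Prop := v l.snd = true ↔ l.fst ≠ nil

/-- The formula in 3-conjunctive normal form with the clauses in the list `z` is satisfiable. A clause is a triple `(l₁, l₂, l₃)` of literals. -/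
def Sat3 (z : D) : Prop :=
  ∃ v : D → Bool, ∀ c ∈ z.toList, LitT v c.fst ∨ LitT v c.snd.fst ∨ LitT v c.snd.snd

/-- 3-SAT with `m` clauses is decided in time `2^(O(m / log m)) |z|^(O(1))`. -/
def FastSat3 : Prop :=
  ∃ (p : Prog) (c : ℕ), ∀ z : D, ∃ (y : D) (t : ℕ), Run p z y t ∧ (y ≠ nil ↔ Sat3 z) ∧
    t ≤ 2 ^ (c * (z.toList.length / Nat.log 2 z.toList.length + 1)) * z.size ^ c

end Pool.Agent.EPT
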