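import Pool.Agent.helper60.EPT.Defs

/-!
# The exponential time hypothesis
-/

set_option autoImplicit false

namespace Pool.Agent.EPT

open D

/-- The number of variables of the 3-CNF formula `z` (see `Sat3`). -/
def nvar (z : D) : ℕ := (z.toList.flatMap fun c => [c.fst.snd, c.snd.fst.snd, c.snd.snd.snd]).toFinset.card

/-- The exponential time hypothesis of Impagliazzo, Paturi and Zane: there is `δ > 0` such that 3-SAT with `n` variables is not decided in time
`2^(δ n)` times a polynomial in the length of the formula. -/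
def ETH : Prop :=
  ∃ δ : ℝ, 0 < δ ∧ ¬ ∃ (p : Prog) (c : ℕ), ∀ z : D, ∃ (y : D) (t : ℕ), Run p z y t ∧ (y ≠ nil ↔ Sat3 z) ∧
    (t : ℝ) ≤ c * (2 : ℝ) ^ (δ * nvar z) * (z.size : ℝ) ^ c

end Pool.Agent.EPT
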