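import Pool.Agent.helper60.EPT.Spec

/-! Row eth:FIN. -/

set_option autoImplicit false

namespace Pool.Agent.EPT

open D

theorem FIN_sum (hVSZ : VSZ_stmt) (hDDS : DDS_stmt) (ψ : D) : ((dd (vars ψ)).map size).sum ≤ ψ.size := by
  obtain ⟨h1, h2⟩ := hDDS (vars ψ)
  have h3 : List.Subperm (dd (vars ψ)) (vars ψ) := h1.subperm fun a ha => (h2 a).1 ha
  obtain ⟨l, hl, hs⟩ := h3
  have h4 : ((dd (vars ψ)).map size).sum = (l.map size).sum := ((hl.map size).sum_eq).symm
  rw [h4]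
  exact ((hs.map size).sum_le_sum fun _ _ => Nat.zero_le _).trans (hVSZ ψ)

theorem FIN_pow3 (a b c n : ℕ) (ha : a ≤ 2 ^ n) (hb : b ≤ 2 ^ n) (hc : c ≤ 2 ^ n) : a + b + c ≤ 2 ^ (n + 2) := by
  rw [pow_add]; omega

theorem FIN (hRSZ : RSZ_stmt) (hP1F : P1F_stmt) (hMCB : MCB_stmt) (hVSZ : VSZ_stmt) (hDDS : DDS_stmt)
    (hNDT : NDT_stmt) (hGRS : GRS_stmt) (hARI : ARI_stmt) : FIN_stmt := by
  rintro ⟨R, hR, ⟨pR, cR, hpR⟩, ⟨cκ, hκ⟩⟩
  obtain ⟨f, ⟨pf, cf, hpf⟩, hf, hfκ, ⟨C, hC⟩⟩ := hP1F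
  obtain ⟨g, ⟨pg, cg, hpg⟩, hg⟩ := hMCB
  obtain ⟨C', hC'⟩ := hARI (8 * (cκ * (C + 1)))
  set a := cR * (1 + C) with ha
  set b := a + 1 + cg with hb
  set E := (cf + 3) * cf + a + (b + 2) * cg with hE
  refine ⟨.comp pg (.comp pR pf), (E + 2) * C' + cf, fun z => ?_⟩
  obtain ⟨t1, ht1, hr1⟩ := hpf z
  obtain ⟨t2, ht2, hr2⟩ := hpR (f z)
  obtain ⟨t3, ht3, hr3⟩ := hpg (R (f z))
  refine ⟨g (R (f z)), t1 + t2 + t3, .comp _ _ _ _ _ _ _ (.comp _ _ _ _ _ _ _ hr1 hr2) hr3, ?_, ?_⟩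
  · rw [hg, ← hR, ← hf]
  · set k := (grp z).toList.length with hk
    set w := R (f z) with hw
    set q := (dd (vars w.snd)).length with hq
    set m := z.toList.length with hm
    set K := k + 1 with hK
    have hxs : (f z).size ≤ 2 ^ (C * K) := hC z
    have hκx : pClique.κ (f z) = k := hfκ z
    -- the number of the variables
    have hq1 : q * Nat.log 2 q ≤ 8 * (cκ * (C + 1)) * (k + 1) := by
      have h1 := hNDT (dd (vars w.snd)) (hDDS _).1
      have h2 := FIN_sum hVSZ hDDS w.snd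
      have h3 : w.snd.size ≤ cκ * (k + Nat.log 2 (f z).size + 1) := by
        have := hκ (f z)
        rw [hκx] at this
        exact this
      have h4 : Nat.log 2 (f z).size ≤ C * K := by
        calc Nat.log 2 (f z).size ≤ Nat.log 2 (2 ^ (C * K)) := Nat.log_mono_right hxs
          _ = C * K := Nat.log_pow (by norm_num) _
      have h5 : k + Nat.log 2 (f z).size + 1 ≤ (C + 1) * (k + 1) := by
        have : (C + 1) * (k + 1) = C * K + k + 1 := by rw [hK]; ring
        omega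
      calc q * Nat.log 2 q ≤ 8 * ((dd (vars w.snd)).map size).sum := h1
        _ ≤ 8 * w.snd.size := Nat.mul_le_mul_left 8 h2
        _ ≤ 8 * (cκ * (k + Nat.log 2 (f z).size + 1)) := Nat.mul_le_mul_left 8 h3
        _ ≤ 8 * (cκ * ((C + 1) * (k + 1))) := Nat.mul_le_mul_left 8 (Nat.mul_le_mul_left cκ h5)
        _ = 8 * (cκ * (C + 1)) * (k + 1) := by ring
    have hG := hGRS z
    have hM : K * (q + 1) ≤ C' * (m / Nat.log 2 m + 1) := hC' m k q hG.2.2.1 hG.2.2.2.1 hq1
    set M := m / Nat.log 2 m + 1 with hMdef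
    have hK1 : 1 ≤ K := by omega
    have hKq : K ≤ K * (q + 1) := Nat.le_mul_of_pos_right K (Nat.succ_pos q)
    have hKq1 : 1 ≤ K * (q + 1) := hK1.trans hKq
    have hz := size_pos z
    -- time of the reduction
    have hT2 : t2 ≤ 2 ^ (a * K) := by
      calc t2 ≤ 2 ^ (cR * (pClique.κ (f z) + 1)) * (f z).size ^ cR := ht2
        _ ≤ 2 ^ (cR * K) * (2 ^ (C * K)) ^ cR := by
          rw [hκx]
          exact Nat.mul_le_mul_left _ (Nat.pow_le_pow_left hxs cR)
        _ = 2 ^ (a * K) := by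
          rw [← pow_mul, ← pow_add, ha]
          congr 1
          ring
    have hws : w.size ≤ 2 ^ (a * K) := (hRSZ _ _ _ _ hr2).trans hT2
    -- time of the brute force
    have hT3 : t3 ≤ 2 ^ ((b + 2) * cg * (K * (q + 1))) := by
      have e1 : (w.size + 1) ^ q ≤ 2 ^ (b * (K * (q + 1))) := by
        have : w.size + 1 ≤ 2 ^ ((a + 1) * K) := by
          have h1 : 2 ^ ((a + 1) * K) = 2 ^ (a * K) * 2 ^ K := by rw [← pow_add]; congr 1; ring
          have h2 : 2 ≤ 2 ^ K := by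
            calc 2 = 2 ^ 1 := rfl
              _ ≤ 2 ^ K := Nat.pow_le_pow_right (by norm_num) hK1
          have h3 : 1 ≤ 2 ^ (a * K) := Nat.one_le_two_pow
          rw [h1]
          nlinarith
        calc (w.size + 1) ^ q ≤ (2 ^ ((a + 1) * K)) ^ q := Nat.pow_le_pow_left this q
          _ = 2 ^ ((a + 1) * K * q) := by rw [← pow_mul]
          _ ≤ 2 ^ (b * (K * (q + 1))) := by
            refine Nat.pow_le_pow_right (by norm_num) ?_
            calc (a + 1) * K * q ≤ (a + 1) * K * (q + 1) := Nat.mul_le_mul_left _ (Nat.le_succ q)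
              _ = (a + 1) * (K * (q + 1)) := by ring
              _ ≤ b * (K * (q + 1)) := Nat.mul_le_mul_right _ (by omega)
      have e2 : w.size ≤ 2 ^ (b * (K * (q + 1))) := by
        refine hws.trans (Nat.pow_le_pow_right (by norm_num) ?_)
        exact Nat.mul_le_mul (by omega) hKq
      have e3 : cg ≤ 2 ^ (b * (K * (q + 1))) := by
        calc cg ≤ 2 ^ cg := Nat.lt_two_pow_self.le
          _ ≤ 2 ^ (b * (K * (q + 1))) := by
            refine Nat.pow_le_pow_right (by norm_num) ?_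
            calc cg = cg * 1 := (mul_one _).symm
              _ ≤ b * (K * (q + 1)) := Nat.mul_le_mul (by omega) hKq1
      have e4 := FIN_pow3 _ _ _ _ e1 e2 e3
      calc t3 ≤ ((w.size + 1) ^ q + w.size + cg) ^ cg := ht3
        _ ≤ (2 ^ (b * (K * (q + 1)) + 2)) ^ cg := Nat.pow_le_pow_left e4 cg
        _ = 2 ^ ((b * (K * (q + 1)) + 2) * cg) := by rw [← pow_mul]
        _ ≤ 2 ^ ((b + 2) * cg * (K * (q + 1))) := by
          refine Nat.pow_le_pow_right (by norm_num) ?_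
          have : b * (K * (q + 1)) + 2 ≤ (b + 2) * (K * (q + 1)) := by nlinarith
          calc (b * (K * (q + 1)) + 2) * cg ≤ (b + 2) * (K * (q + 1)) * cg := Nat.mul_le_mul_right cg this
            _ = (b + 2) * cg * (K * (q + 1)) := by ring
    -- time of the first part
    have hT1 : t1 ≤ 2 ^ ((cf + 3) * cf * K) * z.size ^ cf := by
      have e1 : 2 ^ k + z.size + cf ≤ 2 ^ ((cf + 3) * K) * z.size := by
        have h1 : 2 ^ k ≤ 2 ^ (K + cf) := Nat.pow_le_pow_right (by norm_num) (by omega)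
        have h2 : cf ≤ 2 ^ (K + cf) := by
          calc cf ≤ 2 ^ cf := Nat.lt_two_pow_self.le
            _ ≤ 2 ^ (K + cf) := Nat.pow_le_pow_right (by norm_num) (by omega)
        have h3 : 1 ≤ 2 ^ (K + cf) := Nat.one_le_two_pow
        have h4 : 2 ^ (K + cf) * 4 ≤ 2 ^ ((cf + 3) * K) := by
          calc 2 ^ (K + cf) * 4 = 2 ^ (K + cf + 2) := by rw [pow_add 2 (K + cf) 2]; norm_num
            _ ≤ 2 ^ ((cf + 3) * K) := by
              refine Nat.pow_le_pow_right (by norm_num) ?_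
              nlinarith
        have h5 : 2 ^ k + z.size + cf ≤ 2 ^ (K + cf) * 4 * z.size := by
          nlinarith
        exact h5.trans (Nat.mul_le_mul_right _ h4)
      calc t1 ≤ (2 ^ k + z.size + cf) ^ cf := ht1
        _ ≤ (2 ^ ((cf + 3) * K) * z.size) ^ cf := Nat.pow_le_pow_left e1 cf
        _ = 2 ^ ((cf + 3) * cf * K) * z.size ^ cf := by
          rw [mul_pow, ← pow_mul]
          congr 2
          ring
    -- the sum
    have hzc : 1 ≤ z.size ^ cf := Nat.one_le_pow _ _ hz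
    have hS : t1 + t2 + t3 ≤ 2 ^ (E * (K * (q + 1)) + 2) * z.size ^ cf := by
      have e1 : t1 ≤ 2 ^ (E * (K * (q + 1))) * z.size ^ cf := by
        refine hT1.trans (Nat.mul_le_mul_right _ (Nat.pow_le_pow_right (by norm_num) ?_))
        exact Nat.mul_le_mul (by omega) hKq
      have e2 : t2 ≤ 2 ^ (E * (K * (q + 1))) * z.size ^ cf := by
        calc t2 ≤ 2 ^ (a * K) := hT2
          _ ≤ 2 ^ (E * (K * (q + 1))) :=
            Nat.pow_le_pow_right (by norm_num) (Nat.mul_le_mul (by omega) hKq)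
          _ = 2 ^ (E * (K * (q + 1))) * 1 := (mul_one _).symm
          _ ≤ 2 ^ (E * (K * (q + 1))) * z.size ^ cf := Nat.mul_le_mul_left _ hzc
      have e3 : t3 ≤ 2 ^ (E * (K * (q + 1))) * z.size ^ cf := by
        calc t3 ≤ 2 ^ ((b + 2) * cg * (K * (q + 1))) := hT3
          _ ≤ 2 ^ (E * (K * (q + 1))) :=
            Nat.pow_le_pow_right (by norm_num) (Nat.mul_le_mul_right _ (by omega))
          _ = 2 ^ (E * (K * (q + 1))) * 1 := (mul_one _).symm
          _ ≤ 2 ^ (E * (K * (q + 1))) * z.size ^ cf := Nat.mul_le_mul_left _ hzc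
      rw [pow_add]
      nlinarith
    refine hS.trans ?_
    refine Nat.mul_le_mul (Nat.pow_le_pow_right (by norm_num) ?_) (Nat.pow_le_pow_right hz (by omega))
    have h1 : E * (K * (q + 1)) + 2 ≤ (E + 2) * (K * (q + 1)) := by nlinarith
    have h2 : (E + 2) * (K * (q + 1)) ≤ (E + 2) * (C' * M) := Nat.mul_le_mul_left _ hM
    calc E * (K * (q + 1)) + 2 ≤ (E + 2) * (C' * M) := h1.trans h2
      _ = (E + 2) * C' * M := by ring
      _ ≤ ((E + 2) * C' + cf) * M := Nat.mul_le_mul_right _ (by omega)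

end Pool.Agent.EPT
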