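import Pool.Agent.helper60.EPT.Defs

/-!
# Project EPT (MP_2b48c2_lc): an ept-reduction from `p-CLIQUE` to `p-MC(Σ₁)` would refute the exponential time hypothesis

THE PROOF. Let `R` be an ept-reduction. (1) 3-SAT with `m` clauses: divide the clauses into `k ≤ √m + 1` groups of at most `2 k` clauses; the vertices of a graph are the pairs (group, assignment of its variables which satisfies it), two vertices of different groups are adjacent if they agree on the common variables; there is
a `k`-clique iff the formula is satisfiable; the graph has size `2^(O(k))` (blocks A, B, D). (2) `R` gives a structure of size `2^(O(k))` and a sentence `φ` of length `s = O(k)`. There are only `q = O(s / log s)` different variables, because different names are long (NDT). (3) Trying all assignments takes the time `2^(O(k q)) = 2^(O(m / log m))`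
(blocks B, C, row ARI).

RULES. Definitions of the statement: `Pool/Agent/helper60/EPT/Defs.lean`. File of the row `eth:XXX`: `Pool/Agent/<seat>/EPT/XXX.lean`, `import Pool.Agent.helper60.EPT.Spec`, `set_option autoImplicit false`, `namespace Pool.Agent.EPT`, `open D`, theorem line `theorem XXX (hYYY : YYY_stmt) .. : XXX_stmt` (hypotheses as listed in the
docstring as (from YYY, ..); `(hC : Cal)`, `(hL : CalL)` where it says Cal, CalL); auxiliary lemmas prefixed `XXX_`. No straight double quotes, no `convert` / `congr!`, no native_decide, no own macros. A doubtful statement: tell helper60 at once.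

REMARKS. `FP f` means polynomial time, `RT S f` means: in time polynomial in `S x`. With `(hC : Cal)` write for instance `hC.cons _ _ (hC.fst _ hC.id) (hC.snd _ hC.id)`. `D` is `nil | cons a b`; `x.toList`, `ofList l` are inverse bijections between `D` and `List D`. `tv P` is `one` if `P`, otherwise `nil`.
-/

set_option autoImplicit false

namespace Pool.Agent.EPT

open D

/-! ## Small facts proved here -/

@[simp] theorem size_nil : (nil : D).size = 1 := rfl
@[simp] theorem size_cons (a b : D) : (cons a b).size = a.size + b.size + 1 := rfl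
@[simp] theorem fst_nil : (nil : D).fst = nil := rfl
@[simp] theorem snd_nil : (nil : D).snd = nil := rfl
@[simp] theorem fst_cons (a b : D) : (cons a b).fst = a := rfl
@[simp] theorem snd_cons (a b : D) : (cons a b).snd = b := rfl
@[simp] theorem toList_nil : (nil : D).toList = [] := rfl
@[simp] theorem toList_cons (a b : D) : (cons a b).toList = a :: b.toList := rfl
@[simp] theorem ofList_nil : ofList [] = nil := rfl
@[simp] theorem ofList_cons (a : D) (l : List D) : ofList (a :: l) = cons a (ofList l) := rfl

@[simp] theorem toList_ofList (l : List D) : (ofList l).toList = l := by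
  induction l with
  | nil => rfl
  | cons a l ih => simp [ih]

@[simp] theorem ofList_toList (x : D) : ofList x.toList = x := by
  induction x with
  | nil => rfl
  | cons a b _ ih => simp [ih]

theorem size_pos (x : D) : 1 ≤ x.size := by
  cases x <;> simp

theorem size_fst (x : D) : x.fst.size ≤ x.size := by
  cases x <;> simp
  omega

theorem size_snd (x : D) : x.snd.size ≤ x.size := by
  cases x <;> simp
  omega

theorem size_ofList (l : List D) : (ofList l).size = (l.map size).sum + l.length + 1 := by
  induction l with
  | nil => rfl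
  | cons a l ih => simp [ih]; omega

theorem length_le_size (x : D) : x.toList.length + 1 ≤ x.size := by
  induction x with
  | nil => simp
  | cons a b _ ih => have := size_pos a; simp; omega

theorem size_mem (x a : D) (h : a ∈ x.toList) : a.size + 1 ≤ x.size := by
  induction x with
  | nil => simp at h
  | cons u b _ ih =>
    simp at h
    rcases h with rfl | h
    · simp
    · have := ih h; simp; omega

/-! ## Auxiliary definitions -/

/-- polynomially bounded by `S` -/
def PB (S T : D → ℕ) : Prop := ∃ c : ℕ, ∀ x, T x ≤ (S x + c) ^ c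

/-- `f` is computable in polynomial time in `S x` -/
def RT (S : D → ℕ) (f : D → D) : Prop :=
  ∃ (p : Prog) (c : ℕ), ∀ x, ∃ t, t ≤ (S x + c) ^ c ∧ Run p x (f x) t

/-- `f` is computable in polynomial time -/
def FP (f : D → D) : Prop := RT size f

/-- truth values -/
def tv (P : Prop) [Decidable P] : D := if P then one else nil

theorem tv_ne_nil (P : Prop) [Decidable P] : tv P ≠ nil ↔ P := by
  unfold tv one; split_ifs <;> simp_all

theorem tv_eq_nil (P : Prop) [Decidable P] : tv P = nil ↔ ¬ P := by
  unfold tv one; split_ifs <;> simp_all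

theorem tv_congr (P Q : Prop) [Decidable P] [Decidable Q] (h : P ↔ Q) : tv P = tv Q := by
  unfold tv; simp only [h]

/-- the value of `x` in the association list `e` (`nil` if it does not occur) -/
def look (e x : D) : D := ((e.toList.find? fun p => p.fst = x).getD nil).snd

/-- recursion on trees: `a` is the value at `nil` (as a function of the parameter `e`), `h` gives the value at `cons l r` from the values at `l`, `r`, the
tree and the parameter -/
def rc (a h : D → D) (e : D) : D → D
  | nil => a e
  | cons l r => h (cons (cons (rc a h e l) (rc a h e r)) (cons (cons l r) e))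

/-- the variables of a formula, with repetitions -/
def vars : D → List D
  | nil => []
  | cons nil nil => []
  | cons nil (cons a b) => vars a ++ vars b
  | cons (cons _ _) r => r.toList

/-- without repetitions -/
def dd (l : List D) : List D := l.foldl (fun acc a => if a ∈ acc then acc else a :: acc) []

/-- all `cons u l`, `u` in `U`, `l` in `L` -/
def prd (U L : D) : D := ofList (U.toList.flatMap fun u => L.toList.map fun l => cons u l)

/-- all lists over `U` of the same length as `n` -/
def tup (U n : D) : D := (prd U)^[n.toList.length] (cons nil nil)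

/-- pairs -/
def zp (X l : D) : D := ofList (List.zipWith cons X.toList l.toList)

/-- one step of the partition into groups; the state is `(n, (rest, groups))`, a group is `(n, list)`, `n` in unary notation -/
def gst (s : D) : D :=
  if s.snd.fst = nil then s else
    cons (cons nil (cons nil s.fst)) (cons (ofList (s.snd.fst.toList.drop s.fst.toList.length))
      (cons (cons s.fst (ofList (s.snd.fst.toList.take s.fst.toList.length))) s.snd.snd))

/-- the partition into groups of lengths 1, 3, 5, .. -/
def grp (z : D) : D := (gst^[z.toList.length] (cons one (cons z nil))).snd.snd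

/-- the variables of a list of clauses -/
def vc (ch : D) : D := ofList (ch.toList.flatMap fun c => [c.fst.snd, c.snd.fst.snd, c.snd.snd.snd])

/-- the literal `l` is true under the assignment `e` (an association list) -/
def lt (e l : D) : Prop := look e l.snd ≠ nil ↔ l.fst ≠ nil

instance (e l : D) : Decidable (lt e l) := by unfold lt; infer_instance

/-- all clauses of the list are true -/
def ok (ch e : D) : Prop := ∀ c ∈ ch.toList, lt e c.fst ∨ lt e c.snd.fst ∨ lt e c.snd.snd

instance (ch e : D) : Decidable (ok ch e) := by unfold ok; infer_instance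

/-- the assignments agree on the common variables -/
def cns (e e' : D) : Prop := ∀ p ∈ e.toList, ∀ q ∈ e'.toList, p.fst = q.fst → look e p.fst = look e' q.fst

instance (e e' : D) : Decidable (cns e e') := by unfold cns; infer_instance

/-- the list of all `(n, e)`, `(n, ch)` a group in `G`, `e` an assignment of its variables (the values are given by the elements of `B`) satisfying `ch` -/
def lv (G B : D) : D :=
  ofList (G.toList.flatMap fun g => (B.toList.map fun β => zp (vc g.snd) β).filter (fun e => ok g.snd e) |>.map fun e => cons g.fst e)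

/-- forget the names of the variables -/
def st (u : D) : D := cons u.fst (ofList (u.snd.toList.map snd))

/-- the graph -/
def gra (G B : D) : D :=
  cons (ofList (G.toList.map fun _ => nil)) (cons (ofList ((lv G B).toList.map st))
    (ofList ((lv G B).toList.flatMap fun u => ((lv G B).toList.filter fun w => u.fst ≠ w.fst ∧ cns u.snd w.snd).map fun w => cons (st u) (st w))))

/-- the list `[false, true]` -/
def bits : D := cons nil (cons one nil)

/-! ## Block A. The calculus of programs -/

/-- Row PBC (short-medium). Polynomial bounds. If `T x ≤ (S x + c) ^ c` let `N = S x + c + d + 2 ≥ 2`: all of `T x`, `d`, `2` are `≤ N ^ (c + 1)`, so sums and products are `≤ N ^ (2 c + 2)`, `(T x + d) ^ d ≤ N ^ ((c + 2) * d)`, and `N ^ e ≤ (S x + E) ^ E` for `E ≥ e`, `E ≥ c + d + 2`.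
(2) `c = 1`. (6) `T' x ≤ (T x + c') ^ c'`, (4) with `d = c'`. -/
def PBC_stmt : Prop :=
  (∀ (S : D → ℕ) (d : ℕ), PB S fun _ => d) ∧ (∀ S : D → ℕ, PB S S) ∧
  (∀ S T T' : D → ℕ, PB S T → PB S T' → PB S (fun x => T x + T' x) ∧ PB S (fun x => T x * T' x)) ∧
  (∀ (S T : D → ℕ) (d : ℕ), PB S T → PB S fun x => (T x + d) ^ d) ∧
  (∀ S T T' : D → ℕ, PB S T' → (∀ x, T x ≤ T' x) → PB S T) ∧
  ∀ S T T' : D → ℕ, PB S T → PB T T' → PB S T'

/-- Row RSZ (short). Induction on `Run`: the output is not larger than the time (`size_pos`, `size_fst`, `size_snd`). -/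
def RSZ_stmt : Prop := ∀ (p : Prog) (x y : D) (t : ℕ), Run p x y t → y.size ≤ t

/-- Row RBA (short; from PBC). `idt`; the constant `a`: induction on `a`, `emp`, `pair` (time `≤ C * x.size`); `hd`, `tl`, `eqt` (time `x.size`, `x.size + 2`). -/
def RBA_stmt : Prop := (∀ S : D → ℕ, PB S size → RT S (fun x => x) ∧ ∀ a : D, RT S fun _ => a) ∧
  FP fst ∧ FP snd ∧ FP fun x => tv (x.fst = x.snd)

/-- Row RCG (short-medium; from PBC, RSZ). Composition: program `comp q p`; the time of `q` on `f x` is `≤ (S' (f x) + c') ^ c'`. (2) `S' = size`: `(f x).size ≤ t ≤ (S x + c) ^ c` by RSZ. (3) change of the bound. -/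
def RCG_stmt : Prop :=
  (∀ (S S' : D → ℕ) (g f : D → D), RT S' g → RT S f → PB S (fun x => S' (f x)) → RT S fun x => g (f x)) ∧
  (∀ (S : D → ℕ) (g f : D → D), FP g → RT S f → RT S fun x => g (f x)) ∧
  (∀ (S S' : D → ℕ) (f : D → D), RT S f → PB S' S → RT S' f) ∧
  ∀ (S : D → ℕ) (f : D → D), RT S f → PB S fun x => (f x).size

/-- Row RCO (short-medium; from PBC). `pair`, `cond`. -/
def RCO_stmt : Prop := ∀ (S : D → ℕ), PB S size → ∀ f g : D → D, RT S f → RT S g → RT S (fun x => cons (f x) (g x)) ∧
  ∀ c : D → D, RT S c → RT S fun x => if c x = nil then g x else f x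

/-- Row RWL (medium; from PBC, RSZ, RCG). The loop. Program `comp (loop pc pf) pa`. Lemma (induction on `N`, for all starting values `s`): if `N` is the number of steps, all `f^[i] s` (`i ≤ N`) have size `≤ b`, `c (f^[i] s) ≠ nil` for `i < N`, `c (f^[N] s) = nil`, then `Run (.loop pc pf) s (f^[N] s) t` with
`t ≤ (N + 1) * ((b + c₁) ^ c₁ + (b + c₂) ^ c₂ + b)`. -/
def RWL_stmt : Prop := ∀ (S : D → ℕ), PB S size → ∀ c f a r : D → D, FP c → FP f → RT S a →
  (∃ B : D → ℕ, PB S B ∧ ∀ x : D, ∃ N : ℕ, N ≤ B x ∧ r x = f^[N] (a x) ∧ c (r x) = nil ∧ (∀ i : ℕ, i < N → c (f^[i] (a x)) ≠ nil) ∧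
    ∀ i : ℕ, i ≤ N → (f^[i] (a x)).size ≤ B x) → RT S r

/-- Row RIT (short-medium; from PBC, RBA, RCG, RCO, RWL). Iteration. RWL with the state `cons counter state`, condition `fst`, step `s ↦ cons s.fst.snd (f s.snd)`, start `cons (n x) (a x)`, `N = (n x).toList.length`; after `i` steps the state is `cons (the counter without i elements) (f^[i] (a x))`; then `snd`. -/
def RIT_stmt : Prop := ∀ (S : D → ℕ), PB S size → ∀ f n a : D → D, FP f → RT S n → RT S a →
  (∃ B : D → ℕ, PB S B ∧ ∀ (x : D) (i : ℕ), i ≤ (n x).toList.length → (f^[i] (a x)).size ≤ B x) →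
  RT S fun x => f^[(n x).toList.length] (a x)

/-- Row RFO (medium; from PBC, RBA, RCG, RCO, RIT). Folding. RIT for the step `s ↦ cons (f (cons s.fst (cons s.snd.fst.fst s.snd.snd))) (cons s.snd.fst.snd s.snd.snd)` (state `cons acc (cons list e)`), `n = l`, the start `cons (a x) (cons (l x) (e x))`, and the first part of the result. After `i ≤ length` steps the state is
`cons (fold over the first i elements) (cons (the list without them) (e x))`. -/
def RFO_stmt : Prop := ∀ (S : D → ℕ), PB S size → ∀ f l e a : D → D, FP f → RT S l → RT S e → RT S a →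
  (∃ B : D → ℕ, PB S B ∧ ∀ (x : D) (L : List D), L <+: (l x).toList →
    (L.foldl (fun acc h => f (cons acc (cons h (e x)))) (a x)).size ≤ B x) →
  RT S fun x => (l x).toList.foldl (fun acc h => f (cons acc (cons h (e x)))) (a x)

/-- The rules for polynomial time functions. -/
structure Cal : Prop where
  id : FP fun x => x
  const : ∀ a : D, FP fun _ => a
  comp : ∀ g f : D → D, FP g → FP f → FP fun x => g (f x)
  cons : ∀ f g : D → D, FP f → FP g → FP fun x => cons (f x) (g x)
  cond : ∀ c f g : D → D, FP c → FP f → FP g → FP fun x => if c x = nil then g x else f x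
  fst : ∀ f : D → D, FP f → FP fun x => (f x).fst
  snd : ∀ f : D → D, FP f → FP fun x => (f x).snd
  eq : ∀ f g : D → D, FP f → FP g → FP fun x => tv (f x = g x)
  not : ∀ f : D → D, FP f → FP fun x => tv (f x = nil)
  and : ∀ f g : D → D, FP f → FP g → FP fun x => tv (f x ≠ nil ∧ g x ≠ nil)
  or : ∀ f g : D → D, FP f → FP g → FP fun x => tv (f x ≠ nil ∨ g x ≠ nil)
  iff : ∀ f g : D → D, FP f → FP g → FP fun x => tv (f x ≠ nil ↔ g x ≠ nil)
  whl : ∀ c f a r : D → D, FP c → FP f → FP a →
    (∃ C : ℕ, ∀ x : D, ∃ N : ℕ, N ≤ (x.size + C) ^ C ∧ r x = f^[N] (a x) ∧ c (r x) = nil ∧ (∀ i : ℕ, i < N → c (f^[i] (a x)) ≠ nil) ∧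
      ∀ i : ℕ, i ≤ N → (f^[i] (a x)).size ≤ (x.size + C) ^ C) → FP r
  iter : ∀ f n a : D → D, FP f → FP n → FP a →
    (∃ c : ℕ, ∀ (x : D) (i : ℕ), i ≤ (n x).toList.length → (f^[i] (a x)).size ≤ (x.size + c) ^ c) →
    FP fun x => f^[(n x).toList.length] (a x)
  fold : ∀ f l e a : D → D, FP f → FP l → FP e → FP a →
    (∃ c : ℕ, ∀ (x : D) (L : List D), L <+: (l x).toList →
      (L.foldl (fun acc h => f (D.cons acc (D.cons h (e x)))) (a x)).size ≤ (x.size + c) ^ c) →
    FP fun x => (l x).toList.foldl (fun acc h => f (D.cons acc (D.cons h (e x)))) (a x)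
  bound : ∀ f : D → D, FP f → ∃ c : ℕ, ∀ x, (f x).size ≤ (x.size + c) ^ c

/-- Row CAL (short-medium; from PBC, RSZ, RBA, RCG, RCO, RWL, RIT, RFO). The case `S = size` (`PB size size`). `not`, `and`, `or`, `iff` with `cond` and constants. -/
def CAL_stmt : Prop := Cal

/-! ## Block B. Lists and trees (all rows have the hypothesis `(hC : Cal)`) -/

/-- Row REV (short; from Cal). Fold with `acc ↦ cons a acc`. The size of the reversed list is the same. Second part: append, fold over the reversed first list. -/
def REV_stmt : Prop := (FP fun x => ofList x.toList.reverse) ∧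
  ∀ a b : D → D, FP a → FP b → FP fun x => ofList ((a x).toList ++ (b x).toList)

/-- Row MAP (short-medium; from Cal, REV). Fold with `acc ↦ cons (f (cons a e)) acc`, reverse. Sizes: every value is `≤ ((cons a e).size + c) ^ c`, at most `size` values. -/
def MAP_stmt : Prop := ∀ f l e : D → D, FP f → FP l → FP e → FP fun x => ofList ((l x).toList.map fun a => f (cons a (e x)))

/-- Row FLT (short-medium; from Cal, REV). Fold, reverse. -/
def FLT_stmt : Prop := ∀ f l e : D → D, FP f → FP l → FP e → FP fun x => ofList ((l x).toList.filter fun a => f (cons a (e x)) ≠ nil)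

/-- Row FLM (short-medium; from Cal, REV). Fold with `acc ↦ (reverse of f (cons a e)) ++ acc`, reverse; or `acc ++ f (cons a e)`. -/
def FLM_stmt : Prop := ∀ f l e : D → D, FP f → FP l → FP e → FP fun x => ofList ((l x).toList.flatMap fun a => (f (cons a (e x))).toList)

/-- Row ANY (short; from Cal, FLT). `∃` : the filtered list is not `nil`; `∀` by negation; membership: `∃ b ∈ l, a = b`. -/
def ANY_stmt : Prop := (∀ f l e : D → D, FP f → FP l → FP e →
    (FP fun x => tv (∃ a ∈ (l x).toList, f (cons a (e x)) ≠ nil)) ∧ FP fun x => tv (∀ a ∈ (l x).toList, f (cons a (e x)) ≠ nil)) ∧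
  ∀ a l : D → D, FP a → FP l → FP fun x => tv (a x ∈ (l x).toList)

/-- Row ZPF (short-medium; from Cal, REV). Fold over the first list with the accumulator `cons (rest of the second list) (reversed result)`; if the rest is `nil` nothing is done. -/
def ZPF_stmt : Prop := ∀ a b : D → D, FP a → FP b → FP fun x => zp (a x) (b x)

/-- Row DRP (short-medium; from Cal, REV). `drop`: fold over `n` with `snd`. `take`: fold over `n` with the accumulator `cons rest result`, as ZPF, reverse. -/
def DRP_stmt : Prop := ∀ n l : D → D, FP n → FP l →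
  (FP fun x => ofList ((l x).toList.drop (n x).toList.length)) ∧ FP fun x => ofList ((l x).toList.take (n x).toList.length)

/-- Row LOK (short; from Cal, FLT). `look e x` is `(first element of the filtered list).snd`: `List.find?` is the head of the filter (`List.head?_filter`). -/
def LOK_stmt : Prop := ∀ e a : D → D, FP e → FP a → FP fun x => look (e x) (a x)

/-- Row DDF (short; from Cal, ANY). Fold. The accumulator is a list of different elements of `l`, its size is `≤` the size of `l` (the new element is added once for every element of `l`). -/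
def DDF_stmt : Prop := ∀ l : D → D, FP l → FP fun x => ofList (dd (l x).toList)

/-- Row DDS (short; only Mathlib). -/
def DDS_stmt : Prop := ∀ l : List D, (dd l).Nodup ∧ ∀ a, a ∈ dd l ↔ a ∈ l

/-- Row TRC (medium, about 150 lines; from Cal). Recursion on trees with an explicit stack, `whl`. State `s = cons todo (cons vals e)`; the items of `todo` are `cons nil t` (evaluate `t`) and `cons one t` (combine: the values of the two parts of `t` are on the stack `vals`, the value of `t.snd` on top). Condition `fst` (the loop stops when `todo = nil`).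
Step, by the first item: `cons nil nil`: push `a e`; `cons nil (cons l r)`: replace it by the items `cons nil l`, `cons nil r`, `cons one (cons l r)`; `cons one t`: pop `vr`, pop `vl`, push `h (cons (cons vl vr) (cons t e))`. Start: `cons (cons (cons nil t) nil) (cons nil e)`; result `s.snd.fst.fst`.
Lemma (induction on `t`): from `cons (cons (cons nil t) w) (cons v e)` after `N t` steps (`N nil = 1`, `N (cons l r) = N l + N r + 2`, `N t ≤ 2 * t.size`) the state is `cons w (cons (cons (rc a h e t) v) e)`; before, `todo` is not `nil`; on the way the sizes are bounded by `w.size + v.size + e.size` plus a polynomial in `t.size + e.size`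
(for `cons l r`: at most `t.size * (t.size + 6)` for the new part of `todo`, and `t.size * ((t.size + e.size + c) ^ c + 1)` for the new part of `vals`; it is enough to carry the bounds `P * t.size` with a constant `P` which bounds all the numbers `t'.size + 6`, `(t'.size + e.size + c) ^ c + 1` for the subtrees `t'` of the given tree). -/
def TRC_stmt : Prop := ∀ a h : D → D, FP a → FP h →
  (∃ c : ℕ, ∀ e t : D, (rc a h e t).size ≤ (t.size + e.size + c) ^ c) → ∀ t e : D → D, FP t → FP e → FP fun x => rc a h (e x) (t x)

/-- The rules for lists. -/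
structure CalL : Prop where
  rev : ∀ l : D → D, FP l → FP fun x => ofList (l x).toList.reverse
  app : ∀ a b : D → D, FP a → FP b → FP fun x => ofList ((a x).toList ++ (b x).toList)
  map : MAP_stmt
  filter : FLT_stmt
  flatMap : FLM_stmt
  any : ∀ f l e : D → D, FP f → FP l → FP e → FP fun x => tv (∃ a ∈ (l x).toList, f (cons a (e x)) ≠ nil)
  all : ∀ f l e : D → D, FP f → FP l → FP e → FP fun x => tv (∀ a ∈ (l x).toList, f (cons a (e x)) ≠ nil)
  mem : ∀ a l : D → D, FP a → FP l → FP fun x => tv (a x ∈ (l x).toList)
  zp : ZPF_stmt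
  drop : ∀ n l : D → D, FP n → FP l → FP fun x => ofList ((l x).toList.drop (n x).toList.length)
  take : ∀ n l : D → D, FP n → FP l → FP fun x => ofList ((l x).toList.take (n x).toList.length)
  look : LOK_stmt
  dd : DDF_stmt
  rc : TRC_stmt

/-- Row CLL (short; from Cal and REV, MAP, FLT, FLM, ANY, ZPF, DRP, LOK, DDF, TRC). -/
def CLL_stmt : Prop := CalL

/-! ## Block C. Model checking -/

/-- Row EVA (medium; from Cal, CalL). Evaluation of a formula. `rc` with the parameter `cons F e`, the value of a tree `t` is `cons (truth value of t) (cons (truth value of t.fst) (truth value of t.snd))` (`V t`). `a _ = cons nil (cons nil nil)`. `h (cons (cons vl vr) (cons t (cons F e)))`: let `l = t.fst`, `r = t.snd`, truth values of `l`, `r`: `vl.fst`, `vr.fst`.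
If `l = nil`: `t = cons nil (cons a b)` (or `cons nil nil`), the truth values of `a`, `b` are `vr.snd.fst`, `vr.snd.snd`; the value is `nil` if `vr.snd.fst ≠ nil` and `vr.snd.snd = nil`, otherwise `one`. If `l ≠ nil`: `s = vals (look e) r` (`map`, `look`), the value is `tv (s.fst = s.snd.fst)` if `l = one`, otherwise `tv (cons l s ∈ F.toList)`.
All values have size `≤ 11`. Structural induction on the formula (functional induction for `Holds`, or strong induction on the size): `(V t).fst ≠ nil ↔ Holds F.toList (look e) t`. -/
def EVA_stmt : Prop := ∃ ev : D → D, FP ev ∧ ∀ F e ψ : D, ev (cons (cons F e) ψ) ≠ nil ↔ Holds F.toList (look e) ψ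

/-- Row VAR (medium; from Cal, CalL). `rc` with the values `cons (vars t) (cons (vars t.fst) (vars t.snd))` (as trees), as EVA; `app`. The size of `ofList (vars t)` is `≤ t.size`. -/
def VAR_stmt : Prop := FP fun x => ofList (vars x)

/-- Row HAG (short; only the definitions). `Holds` depends only on the values of the variables which occur. Structural induction as in the definition of `Holds` (`vals v r = vals w r`). -/
def HAG_stmt : Prop := ∀ (F : List D) (v w : D → D) (ψ : D), (∀ x ∈ vars ψ, v x = w x) → (Holds F v ψ ↔ Holds F w ψ)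

/-- Row VSZ (short; only the definitions). `size_ofList`-type computation. -/
def VSZ_stmt : Prop := ∀ ψ : D, ((vars ψ).map size).sum ≤ ψ.size

/-- Row NDT (medium; only Mathlib). Many different trees are large. There are at most `2 ^ s` trees of size `s`: injection into the words of length `s` (`nil ↦ [false]`, `cons a b ↦ true :: code a ++ code b`, a prefix code), so at most `2 ^ j` trees of size `< j` (`Finset`/`List` counting; or by induction). Let `n = length`, `L = log n`, `j = L / 2`: `4 ^ j ≤ n`.
If `j ≥ 1`: at most `2 ^ j ≤ n / 2` of the trees have size `< j`, so the sum is `≥ (n / 2) * j` (`n - n/2 ≥ n / 2`), `L ≤ 2 j + 1 ≤ 3 j`, so `n * L ≤ 3 n j ≤ 8 * sum` (with care for odd `n`: `2 * #large ≥ n`). If `j = 0`: `L ≤ 1`, and the sum is `≥ n`. -/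
def NDT_stmt : Prop := ∀ l : List D, l.Nodup → l.length * Nat.log 2 l.length ≤ 8 * (l.map size).sum

/-- Row TUM (short; only the definitions). Induction on the length (`Function.iterate_succ_apply'`). -/
def TUM_stmt : Prop := ∀ U n l : D, l ∈ (tup U n).toList ↔ l.toList.length = n.toList.length ∧ ∀ a ∈ l.toList, a ∈ U.toList

/-- Row TUS (short-medium; from TUM or directly). For the iterates `T i = (prd U)^[i] (cons nil nil)`: `T i` has `|U| ^ i` elements, each of size `≤ i * U.size + 1` (`size_mem`), so its size is `≤ |U| ^ i * (i * U.size + 2) + 1`, `|U| ≤ U.size`. -/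
def TUS_stmt : Prop := ∀ (U : D) (i : ℕ), ((prd U)^[i] (cons nil nil)).size ≤ U.size ^ i * (i + 2) * (U.size + 2) + 1

/-- Row TUR (medium; from Cal, CalL, PBC, RBA, RCG, RCO, RIT, TUS). RIT for `S x = (x.fst.size + 1) ^ x.snd.toList.length + x.size`, the step `s ↦ cons s.fst (prd s.fst s.snd)`, `n x = x.snd`, the start `cons x.fst (cons nil nil)`; `snd` of the result. `prd` is in FP: `flatMap` and `map`. Sizes: TUS (`i ≤ length`, `U.size ^ i ≤ (U.size + 1) ^ length`). -/
def TUR_stmt : Prop := RT (fun x => (x.fst.size + 1) ^ x.snd.toList.length + x.size) fun x => tup x.fst x.snd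

/-- Row MCS (medium; from TUM, HAG, DDS). `X` = the list of the different variables. If `v` is an assignment in `U` with `Holds`, take `l = ofList (X.map v)`: `look (zp X l) x = v x` for `x ∈ X`. Conversely let `v x = look (zp X l) x` for `x ∈ X` and `v x` = the first element of `U` otherwise. -/
def MCS_stmt : Prop := ∀ y : D, pMC.Q y ↔ y.fst.fst ≠ nil ∧ ∃ l ∈ (tup y.fst.fst (ofList (dd (vars y.snd)))).toList,
  Holds y.fst.snd.toList (look (zp (ofList (dd (vars y.snd))) l)) y.snd

/-- Row MCB (medium; from Cal, CalL, PBC, RBA, RCG, RCO, MCS, EVA, VAR, TUR). `g y = if y.fst.fst = nil then nil else tv (∃ l ∈ (tup U X).toList, ev (cons (cons F (zp X l)) ψ) ≠ nil)`, `U = y.fst.fst`, `X = ofList (dd (vars ψ))`, `F = y.fst.snd`, `ψ = y.snd`. It is `G (cons (tup U X) y)` with `G` in FP (`any`, `zp`, `dd`, VAR, EVA); RCG for TUR with `f y = cons U X`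
(`S' (cons U X) = (U.size + 1) ^ |X| + .. ≤ (y.size + 1) ^ |X| + ..`), RCO. -/
def MCB_stmt : Prop := ∃ g : D → D, RT (fun y => (y.size + 1) ^ (dd (vars y.snd)).length + y.size) g ∧ ∀ y, g y ≠ nil ↔ pMC.Q y

/-! ## Block D. From 3-SAT to cliques -/

/-- Row GRF (short-medium; from Cal, CalL). `iter` for `gst` (`drop`, `take`). After `i ≤ z.toList.length` steps: `s.fst` has size `≤ 4 i + 3`, the rest has size `≤ z.size`, the groups have together size `≤ i * (4 i + z.size + 5) + 1`. -/
def GRF_stmt : Prop := FP grp

/-- Row GRS (medium; only the definitions). Invariant after `i` steps, as long as the rest was not `nil` before: `s.fst` = the list of `2 i + 1` elements `nil`; the rest is `z.drop (i ^ 2)`; the groups are (in reverse order) the `(list of 2 j + 1 elements, z[j ^ 2 .. (j + 1) ^ 2])`, `j < i`; once the rest is `nil` nothing changes. Let `k` be the number of groups: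
`(k - 1) ^ 2 < m ≤ k ^ 2` for `m > 0` (`m` steps are enough since `m ≤ m ^ 2`), `k = 0` for `m = 0`. -/
def GRS_stmt : Prop := ∀ z : D, ((grp z).toList.map fst).Nodup ∧
  (∀ g ∈ (grp z).toList, g.fst.size ≤ 4 * (grp z).toList.length + 1 ∧ g.snd.toList.length ≤ 2 * (grp z).toList.length) ∧
  z.toList.length ≤ (grp z).toList.length ^ 2 ∧ (grp z).toList.length ≤ Nat.sqrt z.toList.length + 1 ∧
  ∀ c, c ∈ z.toList ↔ ∃ g ∈ (grp z).toList, c ∈ g.snd.toList

/-- Row VCF (short; from Cal, CalL). `vc`, `st`, `ok`, `cns`, `lt` are polynomial time (`flatMap`, `map`, `all`, `look`, logic). -/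
def VCF_stmt : Prop := (∀ f : D → D, FP f → FP fun x => vc (f x)) ∧ (∀ f : D → D, FP f → FP fun x => st (f x)) ∧
  (∀ f e : D → D, FP f → FP e → FP fun x => tv (ok (f x) (e x))) ∧ ∀ f e : D → D, FP f → FP e → FP fun x => tv (cns (f x) (e x))

/-- Row GRA (medium; from Cal, CalL, VCF). `lv` and `gra` are polynomial time: `flatMap`, `map`, `filter` with parameters. -/
def GRA_stmt : Prop := (FP fun x => lv x.fst x.snd) ∧ FP fun x => gra x.fst x.snd

/-- Row INJ (short-medium; only the definitions). An element of `lv G B` is `cons g.fst (zp (vc g.snd) β)`; `st` gives `g.fst`, so `g` (different groups have different first parts), and the list of the values; the names are those of `vc g.snd` (`List.zipWith`). -/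
def INJ_stmt : Prop := ∀ G B : D, (G.toList.map fst).Nodup → ∀ u ∈ (lv G B).toList, ∀ w ∈ (lv G B).toList, st u = st w → u = w

/-- Row CPL (medium; from INJ). `v` satisfies all clauses. For every group `g` let `e g = ofList ((vc g.snd).toList.map fun x => cons x (if v x then one else nil))` `= zp (vc g.snd) β` for a `β ∈ B`; `look (e g) x = one` or `nil` according to `v x` for the variables `x` of the group; `ok`; the clique is the set of the `st (cons g.fst (e g))`, of cardinality
`G.toList.length` as the `g.fst` are different; `cns`. -/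
def CPL_stmt : Prop := ∀ z G B : D, (G.toList.map fst).Nodup → (∀ c, c ∈ z.toList ↔ ∃ g ∈ G.toList, c ∈ g.snd.toList) →
  (∀ g ∈ G.toList, ∀ v : D → Bool, ∃ β ∈ B.toList, zp (vc g.snd) β = ofList ((vc g.snd).toList.map fun x => cons x (if v x then one else nil))) →
  Sat3 z → pClique.Q (gra G B)

/-- Row SND (medium; from INJ). Let `s` be a clique of `G.toList.length` vertices. Each is `st u` for exactly one `u ∈ lv G B` (INJ); for two different vertices `st u`, `st w` an edge `cons (st u') (st w')` is `cons (st u) (st w)` or `cons (st w) (st u)`, so `u.fst ≠ w.fst` and `cns` (in one of the two directions; `cns` gives `look e x = look e' x` for common names `x`, symmetric).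
The `u.fst` are different and among the `G.toList.length` different first parts of the groups, so every group `g` has exactly one `u` with `u.fst = g.fst`. Let `v x = true` iff `look u.snd x ≠ nil` for some (equivalently, every) `u` of the clique which has the name `x`. All variables of a group are names of its `u` (the lists `β` are long enough), so `ok` gives that all clauses are true. -/
def SND_stmt : Prop := ∀ z G B : D, (G.toList.map fst).Nodup → (∀ c, c ∈ z.toList ↔ ∃ g ∈ G.toList, c ∈ g.snd.toList) →
  (∀ g ∈ G.toList, ∀ β ∈ B.toList, (vc g.snd).toList.length ≤ β.toList.length) → pClique.Q (gra G B) → Sat3 z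

/-- Row GSZ (short-medium; only the definitions). `lv G B` has at most `k * M` elements, `M = B.toList.length`; `st u` has size `≤ 28 k + 3` (`g.fst.size ≤ 4 k + 1`, at most `6 k` values of size `≤ 3`). So the size is at most `(k M) ^ 2 (56 k + 8) + k M (28 k + 4) + 2 k + 6` (`size_ofList`). -/
def GSZ_stmt : Prop := ∀ (G B : D) (k : ℕ), G.toList.length = k → (∀ g ∈ G.toList, g.fst.size ≤ 4 * k + 1 ∧ g.snd.toList.length ≤ 2 * k) →
  (∀ β ∈ B.toList, ∀ a ∈ β.toList, a.size ≤ 3) → (gra G B).size ≤ 200 * (k + 1) ^ 3 * (B.toList.length + 1) ^ 2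

/-- Row P1F (medium; from Cal, CalL, PBC, RBA, RCG, RCO, GRF, GRS, GRA, CPL, SND, GSZ, TUM, TUS, TUR). `f z = gra (grp z) (tup bits N)`, `N` = the list `grp z` repeated six times (`app`; length `6 k`, `k = (grp z).toList.length`). `bits.size = 7`, so `S' (cons bits N) = 8 ^ (6 k) + ..`, polynomial in `2 ^ k + z.size`; RCG for TUR and for GRA. The elements of `tup bits N` are all lists
of `6 k` elements `nil`, `one` (TUM), `(vc g.snd).toList.length = 3 * g.snd.toList.length ≤ 6 k`. Size: GSZ, `B.toList.length ≤ B.size ≤ 7 ^ (6 k) * (6 k + 2) * 9 + 1` (TUS). -/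
def P1F_stmt : Prop := ∃ f : D → D, RT (fun z => 2 ^ (grp z).toList.length + z.size) f ∧ (∀ z, Sat3 z ↔ pClique.Q (f z)) ∧
  (∀ z, pClique.κ (f z) = (grp z).toList.length) ∧ ∃ C : ℕ, ∀ z, (f z).size ≤ 2 ^ (C * ((grp z).toList.length + 1))

/-! ## Block E. The end -/

/-- Row ARI (medium; only Mathlib). Let `K = k + 1`, `ℓ = log m`. `m ≤ k ^ 2` gives `ℓ ≤ 2 * log K + 1`. Case `q ^ 2 ≤ K`: `K (q + 1) ℓ ≤ C K ^ 2` because `(q + 1) ^ 2 ≤ 4 K` (for `K ≥ 1`) and `(2 log K + 1) ^ 2 ≤ C K`. Case `K < q ^ 2`: `log K ≤ 2 log q + 1`, so `ℓ ≤ 4 log q + 3`, and `(q + 1)(4 log q + 3) ≤ C (q log q + 1) ≤ C (A K + 1)`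
(`q ≤ q log q + 1`). So always `K (q + 1) ℓ ≤ C K ^ 2`, `K ≤ sqrt m + 2`, `K ^ 2 ≤ 2 m + 8`. If `ℓ ≥ 1`: `m ≤ (m / ℓ + 1) ℓ`, `ℓ ≤ m`, so `K (q + 1) ≤ C' (m / ℓ + 1)`. If `ℓ = 0`: `m ≤ 1`, `k ≤ 2`, and `q` is bounded (`q ≤ q log q + 1 ≤ 3 A + 1`). -/
def ARI_stmt : Prop := ∀ A : ℕ, ∃ C : ℕ, ∀ m k q : ℕ, m ≤ k ^ 2 → k ≤ Nat.sqrt m + 1 → q * Nat.log 2 q ≤ A * (k + 1) →
  (k + 1) * (q + 1) ≤ C * (m / Nat.log 2 m + 1)

/-- Row FIN (helper60; from RSZ, PBC, P1F, MCB, VSZ, DDS, NDT, GRS, ARI). -/
def FIN_stmt : Prop := EptRed pClique pMC → FastSat3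

end Pool.Agent.EPT
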