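import Pool.Agent.helper60.EPT.Spec
import Pool.Agent.helper60.EPT.DefsE

/-!
# Project EPT, part S (MP_2b48c2_lc): the sparsification lemma. `FastSat3` refutes the exponential time hypothesis

THE PROOF (Impagliazzo, Paturi, Zane; here with a potential function). A formula is a set `F` of clauses (sets of literals) of 1 to 3 literals, an antichain. A flower: a heart `H` (not empty) and all clauses of size `j` which contain `H`; the petals are the `C \ H`. If the number of petals is at least `a` (petals of size 1) or `b` (petals of size 2) we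
branch: add the heart, or add all petals (and remove the clauses which contain another one). Order: `j = 2`; then `j = 3`, `|H| = 2`; then `j = 3`, `|H| = 1`. The numbers `UU` (unit clauses) and `rho = (2-clauses) + 2 a UU` never decrease, are bounded by `|Λ|`, `3 a |Λ|` (`Λ` the set of the literals), and one of them increases by 1 in the left branch and by `a` or `b` in the
right branch. With suitable weights `x`, `y`: `2^(W L) + 2^(W R) ≤ 2^(W F)`, `W ≤ ε |Λ|`, so there are at most `2^(ε |Λ|)` leaves, and a leaf has at most `(1 + a + b) |Λ|` clauses. One program does this for all `a`, `b` (given as lists `A`, `B` of these lengths in the input), so that the exponents of the polynomials do not depend on `a`, `b`.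

RULES. File of the row `sr:XXX`: `Pool/Agent/<seat>/EPT/XXX.lean`, `import Pool.Agent.helper60.EPT.SpecS`, `set_option autoImplicit false`, `namespace Pool.Agent.EPT`, `open D`, EXACT theorem line in the lock note; auxiliary lemmas prefixed `XXX_`. No straight double quotes, no `convert` / `congr!`, no native_decide, no own macros.
The statements of `Spec.lean` are all proved (rows eth:*) and appear as hypotheses only. A doubtful statement: tell helper60 at once.
-/

set_option autoImplicit false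

namespace Pool.Agent.EPT

open D

/-! ## Definitions: sets of clauses -/

section fin
variable {α : Type} [DecidableEq α]

/-- the number of clauses of size `j` which contain `H` -/
def deg (F : Finset (Finset α)) (j : ℕ) (H : Finset α) : ℕ := (F.filter fun C => C.card = j ∧ H ⊆ C).card

/-- the minimal clauses -/
def red (F : Finset (Finset α)) : Finset (Finset α) := F.filter fun C => ∀ C' ∈ F, C' ⊆ C → C' = C

/-- the petals -/
def pet (F : Finset (Finset α)) (j : ℕ) (H : Finset α) : Finset (Finset α) :=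
  (F.filter fun C => C.card = j ∧ H ⊆ C).image fun C => C \ H

/-- the number of unit clauses -/
def UU (F : Finset (Finset α)) : ℕ := (F.filter fun C => C.card = 1).card

/-- the number of clauses of size 2 -/
def TT (F : Finset (Finset α)) : ℕ := (F.filter fun C => C.card = 2).card

def rho (a : ℕ) (F : Finset (Finset α)) : ℕ := TT F + 2 * a * UU F

/-- the invariants -/
structure Good (a : ℕ) (Λ : Finset α) (F : Finset (Finset α)) : Prop where
  card : ∀ C ∈ F, 1 ≤ C.card ∧ C.card ≤ 3
  sub : ∀ C ∈ F, C ⊆ Λ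
  anti : ∀ C ∈ F, ∀ C' ∈ F, C ⊆ C' → C = C'
  deg : ∀ l, deg F 2 {l} < 2 * a

/-- a flower with the heart `H` on which we branch -/
def Br (a b : ℕ) (F : Finset (Finset α)) (j : ℕ) (H : Finset α) : Prop :=
  (j = 2 ∧ H.card = 1 ∧ a ≤ deg F 2 H) ∨
  (j = 3 ∧ H.card = 2 ∧ a ≤ deg F 3 H ∧ ∀ l, deg F 2 {l} < a) ∨
  (j = 3 ∧ H.card = 1 ∧ b ≤ deg F 3 H ∧ (∀ l, deg F 2 {l} < a) ∧ ∀ H' : Finset α, H'.card = 2 → deg F 3 H' < a)

/-- no flowers -/
def Leaf (a b : ℕ) (F : Finset (Finset α)) : Prop :=
  (∀ l, deg F 2 {l} < a) ∧ (∀ H : Finset α, H.card = 2 → deg F 3 H < a) ∧ ∀ l, deg F 3 {l} < b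

/-- the potential -/
noncomputable def W (x y : ℝ) (a : ℕ) (Λ : Finset α) (F : Finset (Finset α)) : ℝ :=
  x * ((Λ.card : ℝ) - UU F) + y * (3 * (a : ℝ) * Λ.card - rho a F)

/-- all clauses have a true literal -/
def SatF (t : α → Prop) (F : Finset (Finset α)) : Prop := ∀ C ∈ F, ∃ l ∈ C, t l

end fin

/-- the conditions on the weights -/
def Wts (a b : ℕ) (x y : ℝ) : Prop := 1 ≤ a ∧ 1 ≤ b ∧ 0 < x ∧ 0 < y ∧ (2 : ℝ) ^ (-x) + (2 : ℝ) ^ (-(a * x)) ≤ 1 ∧
  (2 : ℝ) ^ (-y) + (2 : ℝ) ^ (-(a * x)) ≤ 1 ∧ (2 : ℝ) ^ (-x) + (2 : ℝ) ^ (-(b * y)) ≤ 1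

/-! ## Definitions: lists of clauses -/

/-- inclusion of lists as sets -/
def sb (a b : D) : Prop := ∀ l ∈ a.toList, l ∈ b.toList

instance (a b : D) : Decidable (sb a b) := by unfold sb; infer_instance

/-- the set of the literals of a clause -/
def cs (c : D) : Finset D := c.toList.toFinset

/-- the set of the clauses -/
def fs (F : D) : Finset (Finset D) := (F.toList.map cs).toFinset

/-- no repetitions -/
def Nd (F : D) : Prop := (F.toList.map cs).Nodup ∧ ∀ c ∈ F.toList, c.toList.Nodup

/-- keep one clause of every class of equal clauses -/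
def dq (L : List D) : List D := L.foldl (fun acc c => if ∃ c' ∈ acc, sb c c' ∧ sb c' c then acc else c :: acc) []

/-- the minimal clauses, without repetitions -/
def rdD (F : D) : D := ofList (dq (F.toList.filter fun c => ∀ c' ∈ F.toList, sb c' c → sb c c'))

/-- the clauses of size `j` which contain `H` -/
def flw (F : D) (j : ℕ) (H : D) : D := ofList (F.toList.filter fun c => c.toList.length = j ∧ sb H c)

/-- the petals -/
def ptD (F : D) (j : ℕ) (H : D) : D := ofList ((flw F j H).toList.map fun c => ofList (c.toList.filter fun l => l ∉ H.toList))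

/-- hearts of size 1 -/
def h1 (F : D) : D := ofList (F.toList.flatMap fun c => c.toList.map fun l => cons l nil)

/-- hearts of size 2 -/
def h2 (F : D) : D := ofList (F.toList.flatMap fun c => c.toList.flatMap fun l => (c.toList.filter fun l' => l' ≠ l).map fun l' => cons l (cons l' nil))

/-- the hearts in the list `hs` with at least `a` clauses of size `j` -/
def cn (a j : ℕ) (F hs : D) : D := ofList (hs.toList.filter fun H => a ≤ (flw F j H).toList.length)

/-- the two branches -/
def two (F : D) (j : ℕ) (H : D) : D := cons (rdD (cons H F)) (cons (rdD (ofList ((ptD F j H).toList ++ F.toList))) nil)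

/-- one step: the list of the two branches, or the formula itself if there is no flower -/
def stp (a b : ℕ) (F : D) : D :=
  if cn a 2 F (h1 F) ≠ nil then two F 2 (cn a 2 F (h1 F)).fst
  else if cn a 3 F (h2 F) ≠ nil then two F 3 (cn a 3 F (h2 F)).fst
  else if cn b 3 F (h1 F) ≠ nil then two F 3 (cn b 3 F (h1 F)).fst
  else cons F nil

/-- one step for a list of formulas -/
def frn (a b : ℕ) (L : D) : D := ofList (L.toList.flatMap fun F => (stp a b F).toList)

/-- the literal with a new name; the names `nil` and `one` are not used -/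
def nl (l : D) : D := cons (tv (l.fst ≠ nil)) (cons one l.snd)

/-- the four literals of the two new variables `nil`, `one` -/
def yp : D := cons one nil
def ym : D := cons nil nil
def wp : D := cons one one
def wm : D := cons nil one

/-- the different literals of the clause `c` -/
def cl0 (c : D) : List D := dd [nl c.fst, nl c.snd.fst, nl c.snd.snd]

/-- the clause `c` as clauses of size 3 -/
def st0 (c : D) : List D :=
  if (cl0 c).length = 3 then [ofList (cl0 c)]
  else if (cl0 c).length = 2 then [ofList (yp :: cl0 c), ofList (ym :: cl0 c)]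
  else [ofList (yp :: wp :: cl0 c), ofList (yp :: wm :: cl0 c), ofList (ym :: wp :: cl0 c), ofList (ym :: wm :: cl0 c)]

/-- the start -/
def F0 (z : D) : D := rdD (ofList (z.toList.flatMap st0))

/-- the set of the literals -/
def lit (z : D) : Finset D :=
  {yp, ym, wp, wm} ∪ ((z.toList.flatMap fun c => [c.fst.snd, c.snd.fst.snd, c.snd.snd.snd]).toFinset.image fun x => cons one (cons one x)) ∪
    ((z.toList.flatMap fun c => [c.fst.snd, c.snd.fst.snd, c.snd.snd.snd]).toFinset.image fun x => cons nil (cons one x))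

/-- the number of steps, as a list of length `(m + 1) (10 + 30 a)` -/
def tmr (z A : D) : D :=
  ofList ((cons nil z).toList.flatMap fun _ => List.replicate 10 nil ++ A.toList.flatMap fun _ => List.replicate 30 nil)

/-- the list of the formulas after `n` steps; `x = cons z (cons A B)` -/
def frk (x : D) (n : ℕ) : D := (frn x.snd.fst.toList.length x.snd.snd.toList.length)^[n] (cons (F0 x.fst) nil)

/-- the list of the leaves -/
def frt (x : D) : D := frk x (tmr x.fst x.snd.fst).toList.length

/-- a clause of 1 to 3 literals as a triple -/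
def cv1 (c : D) : D := cons c.fst (cons (if c.snd = nil then c.fst else c.snd.fst) (if c.snd.snd = nil then c.fst else c.snd.snd.fst))

/-- a formula as a list of triples -/
def cv (F : D) : D := ofList (F.toList.map cv1)

/-- the exponent in `FastSat3` -/
def Mx (z : D) : ℕ := z.toList.length / Nat.log 2 z.toList.length + 1

def S1 (x : D) : ℕ := (∑ n ∈ Finset.range ((tmr x.fst x.snd.fst).toList.length + 1), (frk x n).size) + x.size

def S2 (x : D) : ℕ := S1 x + ((frt x).toList.map fun F => 2 ^ Mx (cv F)).sum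

/-! ## Block SA. Sets of clauses -/

/-- Row SBD (short-medium). Units: injection into `Λ`. `∑ l ∈ Λ, deg F 2 {l} = 2 * TT F` (double counting, every clause of size 2 contains 2 elements of `Λ`), so `2 * TT F ≤ 2 * a * Λ.card`, `rho a F ≤ a * Λ.card + 2 * a * Λ.card`. For a leaf `TT F ≤ ∑ deg F 2 {l} ≤ a * Λ.card` and the number of clauses of size 3 is
`≤ ∑ l ∈ Λ, deg F 3 {l} ≤ b * Λ.card`. -/
def SBD_stmt : Prop := ∀ (α : Type) [DecidableEq α] (a : ℕ) (Λ : Finset α) (F : Finset (Finset α)), Good a Λ F →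
  UU F ≤ Λ.card ∧ rho a F ≤ 3 * a * Λ.card ∧ ∀ b : ℕ, Leaf a b F → F.card ≤ (1 + a + b) * Λ.card

/-- Row SNW (medium). Adding new clauses. `G = red (F ∪ X)`. The elements of `X` are not in `F`, not above an element of `F`, and all of the same size, so they are minimal; an element `C` of `F` is in `G` iff it does not contain an element of `X`. `s = 1`: the unit clauses of `G` are those of `F` and `X`; the clauses of size 2 of `F` which are
not in `G` contain an element of `X`: at most `∑ x ∈ X, deg F 2 x ≤ 2 * a * X.card` (`x = {l}`), so `TT G + 2 * a * X.card ≥ TT F`. `s = 2`: a clause of `F` of size at most 2 does not contain an element of `X` (it would be equal to it, and `C ⊆ C'` is excluded), so `UU G = UU F`, `TT G = TT F + X.card`. -/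
def SNW_stmt : Prop := ∀ (α : Type) [DecidableEq α] (a : ℕ) (Λ : Finset α) (F X : Finset (Finset α)) (s : ℕ), Good a Λ F → s = 1 ∨ s = 2 →
  (∀ C ∈ X, C.card = s ∧ C ⊆ Λ) → (∀ C ∈ F, ∀ C' ∈ X, ¬ C ⊆ C') →
  (∀ C ∈ red (F ∪ X), 1 ≤ C.card ∧ C.card ≤ 3 ∧ C ⊆ Λ) ∧ (∀ C ∈ red (F ∪ X), ∀ C' ∈ red (F ∪ X), C ⊆ C' → C = C') ∧
  (s = 1 → UU (red (F ∪ X)) = UU F + X.card ∧ rho a F ≤ rho a (red (F ∪ X)) ∧ ∀ l, deg (red (F ∪ X)) 2 {l} ≤ deg F 2 {l}) ∧
  (s = 2 → UU (red (F ∪ X)) = UU F ∧ TT (red (F ∪ X)) = TT F + X.card ∧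
    ∀ l, deg (red (F ∪ X)) 2 {l} ≤ deg F 2 {l} + (X.filter fun C => l ∈ C).card)

/-- Row SBR (medium; from SNW). SNW for `X = {H}` and `X = pet F j H`. There is a clause `C ⊇ H` of size `j` (`1 ≤ a`, `1 ≤ b`), so `H ⊆ Λ`, `H` is not above an element of `F` (antichain, `|H| < j`); a petal `C \ H` neither. The map `C ↦ C \ H` is injective on the clauses which contain `H`, so `(pet F j H).card = deg F j H`; the petals have size `j - |H|`.
Third case of `Br`: the number of petals which contain `l` is `0` for `l ∈ H`, otherwise `≤ deg F 3 (insert l H) < a`; so the new degree is `< a + a`. Second case, left: the new degree is `≤ (a - 1) + 1 < 2 a`. -/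
def SBR_stmt : Prop := ∀ (α : Type) [DecidableEq α] (a b : ℕ) (Λ : Finset α) (F : Finset (Finset α)) (j : ℕ) (H : Finset α), 1 ≤ a → 1 ≤ b →
  Good a Λ F → Br a b F j H → Good a Λ (red (F ∪ {H})) ∧ Good a Λ (red (F ∪ pet F j H)) ∧
  UU F ≤ UU (red (F ∪ {H})) ∧ UU F ≤ UU (red (F ∪ pet F j H)) ∧ rho a F ≤ rho a (red (F ∪ {H})) ∧ rho a F ≤ rho a (red (F ∪ pet F j H)) ∧
  ((UU F + 1 ≤ UU (red (F ∪ {H})) ∧ UU F + a ≤ UU (red (F ∪ pet F j H))) ∨
   (rho a F + 1 ≤ rho a (red (F ∪ {H})) ∧ UU F + a ≤ UU (red (F ∪ pet F j H))) ∨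
   (UU F + 1 ≤ UU (red (F ∪ {H})) ∧ rho a F + b ≤ rho a (red (F ∪ pet F j H))))

/-- Row SPT (short-medium; from SBR). In the three cases `W L ≤ W F - x` or `W F - y`, `W R ≤ W F - a x` or `W F - b y` (`x, y > 0`, `UU`, `rho` do not decrease); `Real.rpow_le_rpow_of_exponent_le`, `Real.rpow_add`. -/
def SPT_stmt : Prop := ∀ (α : Type) [DecidableEq α] (a b : ℕ) (x y : ℝ) (Λ : Finset α) (F : Finset (Finset α)) (j : ℕ) (H : Finset α), Wts a b x y →
  Good a Λ F → Br a b F j H →
  (2 : ℝ) ^ W x y a Λ (red (F ∪ {H})) + (2 : ℝ) ^ W x y a Λ (red (F ∪ pet F j H)) ≤ (2 : ℝ) ^ W x y a Λ F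

/-- Row SRE (medium; only Mathlib). `x = ε / 2`, `y = ε / (6 a)` with `a` large: `2^(-x) < 1`, `2^(-(a x)) → 0`; `1 - 2^(-y) ≥ y / 2` for `0 ≤ y ≤ 1` (convexity, or `2^(-y) = exp (-y log 2) ≤ 1 / (1 + y log 2)`), and `a * 2^(-(a x)) → 0` (`tendsto_pow_const_div_const_pow_of_one_lt` or `tendsto_self_mul_const_pow_of_lt_one` with `r = 2^(-x)`);
then `b` large: `2^(-(b y)) → 0`. -/
def SRE_stmt : Prop := ∀ ε : ℝ, 0 < ε → ∃ (a b : ℕ) (x y : ℝ), Wts a b x y ∧ x + 3 * a * y ≤ ε

/-- Row SSE (short-medium). Every clause of `F` contains a clause of `red F` (a minimal one; `Finset.exists_minimal`-type or strong induction on the size). Branching: if a literal of `H` is true, the left branch; otherwise a true literal of `C` is in `C \ H`. -/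
def SSE_stmt : Prop := ∀ (α : Type) [DecidableEq α] (t : α → Prop) (F : Finset (Finset α)), (SatF t (red F) ↔ SatF t F) ∧
  ∀ (j : ℕ) (H : Finset α), SatF t F ↔ SatF t (red (F ∪ {H})) ∨ SatF t (red (F ∪ pet F j H))

/-! ## Block SB. Lists of clauses -/

/-- Row DAB (medium; only the definitions). `sb c c' ↔ cs c ⊆ cs c'`. `dq` gives a sublist up to order with the same sets `cs c`, every one once. So `fs (rdD F) = red (fs F)`. (2) `c.toList.length = (cs c).card` for lists without repetitions; the clauses of `F` and their sets are in bijection. (3) `cs (ofList (c.toList.filter (· ∉ H.toList))) = cs c \ cs H`. -/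
def DAB_stmt : Prop := (∀ F : D, (∀ c ∈ F.toList, c.toList.Nodup) → Nd (rdD F) ∧ fs (rdD F) = red (fs F)) ∧
  (∀ (F : D) (j : ℕ) (H : D), Nd F → (flw F j H).toList.length = deg (fs F) j (cs H)) ∧
  (∀ (F : D) (j : ℕ) (H : D), Nd F → fs (ofList ((ptD F j H).toList ++ F.toList)) = fs F ∪ pet (fs F) j (cs H) ∧
    ∀ c ∈ (ofList ((ptD F j H).toList ++ F.toList)).toList, c.toList.Nodup) ∧
  ∀ F H : D, fs (cons H F) = fs F ∪ {cs H}

/-- Row DST (medium; from DAB). The hearts of `h1 F` are the lists `[l]`, those of `h2 F` the lists `[l, l']` of two different literals of a clause. If `a ≤ deg (fs F) 2 {l}` then (`1 ≤ a`) `l` occurs, so `cn a 2 F (h1 F) ≠ nil`; etc. `cs (cons l nil) = {l}`, `(cs (cons l (cons l' nil))).card = 2`. -/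
def DST_stmt : Prop := ∀ (a b : ℕ) (F : D), 1 ≤ a → 1 ≤ b → Nd F →
  (stp a b F = cons F nil ∧ Leaf a b (fs F)) ∨
  ∃ (j : ℕ) (H : Finset D) (F1 F2 : D), stp a b F = cons F1 (cons F2 nil) ∧ Br a b (fs F) j H ∧ Nd F1 ∧ Nd F2 ∧
    fs F1 = red (fs F ∪ {H}) ∧ fs F2 = red (fs F ∪ pet (fs F) j H)

/-- Row DFR (medium; from SBD, SBR, SPT, SSE, DST). Induction on `n` (`Function.iterate_succ_apply'`) of: all formulas `G` of the list `Ln` are `Nd`, `Good`; the sum of the `2^(W G)` is at most `2^(W F)` (so the length is at most `2^(W F)`, as `W G ≥ 0` by SBD); there is a satisfiable one iff `F` is satisfiable; every `G` in `Ln` is a leaf or `n ≤ UU G + rho a G`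
(a leaf stays: `stp` gives `cons G nil`). As `UU G + rho a G ≤ (1 + 3 a) * Λ.card`, all are leaves for larger `n`. -/
def DFR_stmt : Prop := ∀ (a b : ℕ) (x y : ℝ) (Λ : Finset D) (F : D), Wts a b x y → Nd F → Good a Λ (fs F) → ∀ n : ℕ,
  (∀ G ∈ ((frn a b)^[n] (cons F nil)).toList, Nd G ∧ Good a Λ (fs G)) ∧
  ((((frn a b)^[n] (cons F nil)).toList.length : ℕ) : ℝ) ≤ (2 : ℝ) ^ W x y a Λ (fs F) ∧
  (∀ t : D → Prop, SatF t (fs F) ↔ ∃ G ∈ ((frn a b)^[n] (cons F nil)).toList, SatF t (fs G)) ∧
  ((1 + 3 * a) * Λ.card < n → ∀ G ∈ ((frn a b)^[n] (cons F nil)).toList, Leaf a b (fs G))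

/-- Row DSZ (short-medium). At most `(Λ.card + 1) ^ 3` subsets of `Λ` of size 1 to 3 (for instance the image of `(Option Λ) ^ 3`, or `card + card ^ 2 + card ^ 3` with `Finset.powersetCard`, `Nat.choose_le_pow`), every clause has size `≤ 3 * B + 4` (`size_ofList`, `ofList_toList`; at most 3 literals). -/
def DSZ_stmt : Prop := ∀ (a B : ℕ) (Λ : Finset D) (F : D), Nd F → Good a Λ (fs F) → (∀ l ∈ Λ, l.size ≤ B) →
  F.size ≤ (Λ.card + 1) ^ 3 * (3 * B + 5) + 1 ∧ F.toList.length = (fs F).card

/-- Row DIN (medium; from DAB, DDS, SSE). `cl0 c` is a list of 1 to 3 different literals `cons one (cons one x)`, `cons nil (cons one x)`; `st0 c` consists of lists of 3 different literals in `lit z`, and `v'` satisfies all clauses of `st0 c` iff it satisfies a literal of `cl0 c` (the new literals `yp`, `ym` have opposite values). All clauses have size 3, so `deg .. 2 = 0 < 2 a` and different clauses are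
not contained in each other. (`v' (cons one x) = v x`; conversely `v x = v' (cons one x)`.) Last: `(lit z).card ≤ 4 + nvar z + nvar z`, and the size of a literal is `≤ x.size + 8`, `x` a variable of `z`. -/
def DIN_stmt : Prop := ∀ z : D, Nd (F0 z) ∧ (∀ a : ℕ, 1 ≤ a → Good a (lit z) (fs (F0 z))) ∧
  (Sat3 z ↔ ∃ v : D → Bool, SatF (LitT v) (fs (F0 z))) ∧ (lit z).card ≤ 2 * nvar z + 4 ∧ nvar z ≤ 3 * z.toList.length ∧
  ∀ l ∈ lit z, l.size ≤ z.size + 10

/-- Row DCV (short-medium). The literals of the triple are those of the clause. -/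
def DCV_stmt : Prop := ∀ F : D, (∀ c ∈ F.toList, 1 ≤ c.toList.length ∧ c.toList.length ≤ 3) →
  (Sat3 (cv F) ↔ ∃ v : D → Bool, SatF (LitT v) (fs F)) ∧ (cv F).toList.length = F.toList.length

/-- Row CRR (short-medium; from SBD, DFR, DIN, DCV, SRE). `a = A.toList.length`, `b = B.toList.length`. Correctness for ALL `A`, `B` for which there are weights `x`, `y` (`Wts`). DFR for `F = F0 z`, `Λ = lit z`, `n = (tmr z A).toList.length = (m + 1) (10 + 30 a) > (1 + 3 a) (6 m + 4) ≥ (1 + 3 a) Λ.card`. `Nd`, `Good` give `1 ≤ length ≤ 3` for the clauses.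
The length of `cv G` is `(fs G).card ≤ (1 + a + b) Λ.card` (SBD, DSZ). -/
def CRR_stmt : Prop := ∀ (z A B : D) (x y : ℝ), Wts A.toList.length B.toList.length x y →
  (Sat3 z ↔ ∃ G ∈ (frt (cons z (cons A B))).toList, Sat3 (cv G)) ∧
  (∀ G ∈ (frt (cons z (cons A B))).toList, (cv G).toList.length ≤ (1 + A.toList.length + B.toList.length) * (2 * nvar z + 4)) ∧
  ∀ n : ℕ, (((frk (cons z (cons A B)) n).toList.length : ℕ) : ℝ) ≤ (2 : ℝ) ^ ((x + 3 * A.toList.length * y) * (2 * nvar z + 4)) ∧
    ∀ G ∈ (frk (cons z (cons A B)) n).toList, G.size ≤ (2 * nvar z + 5) ^ 3 * (3 * (z.size + 10) + 5) + 1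

/-! ## Block SC. Programs -/

/-- Row DFA (short-medium; from Cal, CalL). `sb`: `all`, `mem`. `dq`: fold; the accumulator is a sublist (up to order) of `l`, its size is at most the size of `l`. `rdD`: `filter` with a nested `all`. -/
def DFA_stmt : Prop := (∀ f g : D → D, FP f → FP g → FP fun x => tv (sb (f x) (g x))) ∧ ∀ f : D → D, FP f → FP fun x => rdD (f x)

/-- Row DFB (medium; from Cal, CalL, DFA). `length = 2`, `3`: the tails are or are not `nil`. `a ≤ length l` for `a = A.toList.length`: `A = nil` or `drop` by `A.snd.toList.length` is not `nil`. Then `flw`, `ptD`, `h1`, `h2`, `cn`, `two`, `stp`, `frn` by the rules (the exponents do not depend on `A`, `B`, which are part of the input). -/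
def DFB_stmt : Prop := FP fun x => frn x.fst.fst.toList.length x.fst.snd.toList.length x.snd

/-- Row DFD (medium; from Cal, CalL, DFA). `F0`: `flatMap`, `dd`, cases by the length of `cl0 c`. `cv`: `map`. `tmr`: `flatMap` (with constants). -/
def DFD_stmt : Prop := FP F0 ∧ FP cv ∧ FP fun x => tmr x.fst x.snd

/-- Row RWX (medium; from PBC, RSZ, RCG; adapt the file of row eth:RWL, `Pool/Agent/helper76/EPT/RWL.lean`). The loop with a body whose time is polynomial in `S'`. -/
def RWX_stmt : Prop := ∀ (S S' : D → ℕ), PB S size → ∀ c f a r : D → D, RT S' c → RT S' f → RT S a →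
  (∃ B : D → ℕ, PB S B ∧ ∀ x : D, ∃ N : ℕ, N ≤ B x ∧ r x = f^[N] (a x) ∧ c (r x) = nil ∧ (∀ i : ℕ, i < N → c (f^[i] (a x)) ≠ nil) ∧
    ∀ i : ℕ, i ≤ N → (f^[i] (a x)).size ≤ B x ∧ S' (f^[i] (a x)) ≤ B x) → RT S r

/-- Row RFX (medium; from PBC, RBA, RCG, RCO, RWX; compare the files of rows eth:RIT, eth:RFO). Folding with such a body. State `cons acc (cons list e)`, condition `s.snd.fst`, step `s ↦ cons (f (cons s.fst (cons s.snd.fst.fst s.snd.snd))) (cons s.snd.fst.snd s.snd.snd)`, in `RT` for `S'' s = S' (cons s.fst (cons s.snd.fst.fst s.snd.snd)) + s.size`. At the last state (empty list) `S'` is taken at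
`cons acc (cons nil e)`; to avoid this use the step `if s.snd.fst = nil then s else ..` with `S'' s = (if s.snd.fst = nil then 0 else S' ..) + s.size` (the program `cond` does not run the body in the other case; prove the `RT` of this step directly from the program), or require nothing at the end: the loop program stops there, so only `i < N` is needed for the body. -/
def RFX_stmt : Prop := ∀ (S S' : D → ℕ), PB S size → ∀ f l e a : D → D, RT S' f → RT S l → RT S e → RT S a →
  (∃ B : D → ℕ, PB S B ∧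
    (∀ (x : D) (L : List D), L <+: (l x).toList → (L.foldl (fun acc h => f (cons acc (cons h (e x)))) (a x)).size ≤ B x) ∧
    ∀ (x : D) (L : List D) (h : D), h = nil ∨ h ∈ (l x).toList →
      L <+: (l x).toList → S' (cons (L.foldl (fun acc h => f (cons acc (cons h (e x)))) (a x)) (cons h (e x))) ≤ B x) →
  RT S fun x => (l x).toList.foldl (fun acc h => f (cons acc (cons h (e x)))) (a x)

/-- Row FRT (short-medium; from Cal, CalL, PBC, RBA, RCG, RCO, RIT, DFB, DFD). RIT for the bound `S1` with the state `cons (cons A B) L`. -/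
def FRT_stmt : Prop := RT S1 frt

/-- Row LST (medium; from Cal, CalL, PBC, RBA, RCG, RCO, RFX, FRT, DFD). FastSat3 gives a function `g` with `g z ≠ nil ↔ Sat3 z`, in `RT` for `2 ^ Mx z + z.size` (`2 ^ (c * Mx z) * z.size ^ c ≤ (2 ^ Mx z + z.size) ^ (2 c)`). RFX with `l = frt`, `e = a = nil`, `f w = if g (cv w.snd.fst) = nil then w.fst else one`, `S' w = 2 ^ Mx (cv w.snd.fst) + w.size + (cv w.snd.fst).size`
(RCG, RCO), the bound `B`: a polynomial in `S2 x` (`Mx (cv nil) = 1`). -/
def LST_stmt : Prop := FastSat3 → ∃ d : D → D, RT S2 d ∧ ∀ x : D, d x ≠ nil ↔ ∃ G ∈ (frt x).toList, Sat3 (cv G)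

/-! ## Block SD. The end -/

/-- Row FGR (short-medium; only Mathlib). `log m ≥ 8 K j` for `m ≥ M₀ = 2 ^ (8 K j)`, then `m / log m ≤ m / (8 K j) ≤ (2 n + 4) / (8 j)`; for `m < M₀` `m / log m ≤ M₀`. -/
def FGR_stmt : Prop := ∀ K j : ℕ, 1 ≤ K → 1 ≤ j → ∃ C : ℕ, ∀ n m : ℕ, m ≤ K * (2 * n + 4) → m / Nat.log 2 m + 1 ≤ n / j + C

/-- Row BND (medium; from CRR, SRE, FGR). SRE for `ε = 1 / (4 j)`: `a, b, x, y`; `A`, `B` = lists of these lengths. CRR: every `frk x n` has at most `2 ^ ((2 N + 4) / (4 j)) ≤ 2 * 2 ^ (N / (2 j))` formulas (`N = nvar z`, `j ≥ 1`), so its size is at most this number times `(2 N + 5) ^ 3 * (3 z.size + 35) + 2`, plus 1; `N ≤ 3 * z.size`; the number of steps is at most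
`(z.size + 1) (10 + 30 a) + 1`. `Mx (cv G) ≤ N / (2 j) + C₁` (FGR with `K = 1 + a + b`, `2 j`). -/
def BND_stmt : Prop := ∀ j : ℕ, 1 ≤ j → ∃ (A B : D) (C : ℕ) (x y : ℝ), Wts A.toList.length B.toList.length x y ∧
  ∀ z : D, ((S2 (cons z (cons A B)) : ℕ) : ℝ) ≤ C * (2 : ℝ) ^ ((nvar z : ℝ) / j) * (z.size : ℝ) ^ C

/-- Row FNE (helper60; from LST, CRR, BND). -/
def FNE_stmt : Prop := FastSat3 → ¬ ETH

end Pool.Agent.EPT
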